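import Pool.Agent.N610.JW.Stm
import Pool.Agent.W123.RU.PolyV

set_option autoImplicit false

/-!
# Jump inequality for prime values: every fixed system (project JW, leaf COR)
-/

namespace Pool.Agent.N610.JW.COR

open Polynomial Finset Filter
open Pool.Agent.H373R2.T7 (nuB PerB pz)
open Pool.Agent.W123.RP (Vq)
open Pool.Agent.W123.RU.Poly (Q Sys V_bounds)
open Pool.Agent.N610.JV (count)

lemma V_eq {k : ℕ} (f : Fin k → ℤ[X]) (Y : ℕ) : V f Y = Vq (Q f) Y := by
  unfold V Vq pz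
  apply Finset.prod_congr rfl
  intro p _
  have h : om f p = nuB (Q f) p := by
    unfold om nuB Q
    congr
  rw [h]

/-- a nonconstant polynomial grows at least linearly -/
lemma grow (g : ℤ[X]) (hg : 0 < g.natDegree) : ∃ c : ℝ, 0 < c ∧ ∀ᶠ m : ℕ in atTop,
    (m : ℝ) ≤ c * ((g.eval (m : ℤ)).natAbs : ℝ) := by
  have h1 : (X : ℝ[X]).degree ≤ (g.map (Int.castRingHom ℝ)).degree := by
    rw [degree_X, degree_map_eq_of_injective (RingHom.injective_int _)]
    rw [degree_eq_natDegree (by rintro rfl; simp at hg)]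
    exact_mod_cast hg
  obtain ⟨c, hc, h2⟩ := (Polynomial.isBigO_of_degree_le _ _ h1).exists_pos
  refine ⟨c, hc, ?_⟩
  have h3 := h2.bound
  have h4 := (tendsto_natCast_atTop_atTop (R := ℝ)).eventually h3
  filter_upwards [h4] with m hm
  rw [eval_X] at hm
  have h5 : (g.map (Int.castRingHom ℝ)).eval (m : ℝ) = ((g.eval (m : ℤ) : ℤ) : ℝ) := by
    have := Polynomial.eval_intCast_map (Int.castRingHom ℝ) g (m : ℤ)
    simpa using this
  rw [h5, Real.norm_natCast, Real.norm_eq_abs] at hm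
  rw [Nat.cast_natAbs, Int.cast_abs]
  exact hm

lemma grow_all {k : ℕ} (g : Fin k → ℤ[X]) (hg : ∀ i, 0 < (g i).natDegree) : ∃ c : ℝ, 0 < c ∧
    ∃ m0 : ℕ, ∀ m : ℕ, m0 ≤ m → ∀ i, (m : ℝ) ≤ c * (((g i).eval (m : ℤ)).natAbs : ℝ) := by
  choose c hc h using fun i => grow (g i) (hg i)
  refine ⟨1 + ∑ i, c i, ?_, ?_⟩
  · have : 0 ≤ ∑ i, c i := Finset.sum_nonneg fun i _ => (hc i).le
    linarith
  · have h2 : ∀ᶠ m : ℕ in atTop, ∀ i, (m : ℝ) ≤ c i * (((g i).eval (m : ℤ)).natAbs : ℝ) :=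
      eventually_all.2 h
    obtain ⟨m0, hm0⟩ := eventually_atTop.1 h2
    refine ⟨m0, fun m hm i => (hm0 m hm i).trans ?_⟩
    apply mul_le_mul_of_nonneg_right _ (Nat.cast_nonneg _)
    have := Finset.single_le_sum (f := c) (fun j _ => (hc j).le) (mem_univ i)
    linarith

lemma coeff_bd {k : ℕ} (g : Fin k → ℤ[X]) : ∃ T : ℝ, ∀ i j, |(((g i).coeff j : ℤ) : ℝ)| ≤ T := by
  refine ⟨∑ i, ∑ j ∈ (g i).support, |(((g i).coeff j : ℤ) : ℝ)|, ?_⟩
  intro i j
  have h0 : ∀ i, 0 ≤ ∑ j ∈ (g i).support, |(((g i).coeff j : ℤ) : ℝ)| := fun i =>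
    Finset.sum_nonneg fun _ _ => abs_nonneg _
  by_cases hj : j ∈ (g i).support
  · have h1 := Finset.single_le_sum (f := fun j => |(((g i).coeff j : ℤ) : ℝ)|)
      (fun j _ => abs_nonneg _) hj
    have h2 := Finset.single_le_sum (f := fun i => ∑ j ∈ (g i).support, |(((g i).coeff j : ℤ) : ℝ)|)
      (fun i _ => h0 i) (mem_univ i)
    exact h1.trans h2
  · rw [notMem_support_iff] at hj
    rw [hj]
    simp only [Int.cast_zero, abs_zero]
    exact Finset.sum_nonneg fun i _ => h0 i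

/-- change of the normalisation -/
lemma dens_eq (A : Set ℕ) (n H : ℕ) (v w : ℝ) (hv : v ≠ 0) (hw : w ≠ 0) :
    dens A w n H = dens A v n H * (v / w) := by
  unfold dens
  by_cases hH : (H : ℝ) = 0
  · rw [hH]; simp
  · field_simp

lemma ch_zero (A : Set ℕ) (v lo lam : ℝ) (Y n k m0 : ℕ) (hA : ∀ m ∈ A, m ≤ m0) (hn : m0 ≤ n)
    (hl : 0 < lam) (h : Ch A v lo Y n lam k) : k = 0 := by
  classical
  by_contra hk
  obtain ⟨s, t, h1, -⟩ := h
  obtain ⟨-, -, -, h2⟩ := h1 0 (Nat.pos_of_ne_zero hk)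
  have h0 : ∀ H, dens A v n H = 0 := by
    intro H
    unfold dens count
    have : (Finset.Ioc n (n + H)).filter (fun m => m ∈ A) = ∅ := by
      rw [Finset.filter_eq_empty_iff]
      intro m hm hmA
      have := hA m hmA
      rw [mem_Ioc] at hm
      omega
    rw [this]
    simp
  rw [h0, h0] at h2
  simp at h2
  linarith

theorem main (h : S_UNI) (k : ℕ) (g : Fin k → ℤ[X]) (hk : 1 ≤ k) (hS : Sys g) (θ : ℝ) (hθ : 0 < θ)
    (hθ1 : θ ≤ 1) : ∃ K : ℝ, 0 < K ∧ ∀ᶠ X : ℕ in atTop, ∀ Y : ℕ, (X : ℝ) ^ θ ≤ Y → Y ≤ X →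
      ∀ A : Set ℕ, (∀ m ∈ A, ∀ i, ((g i).eval (m : ℤ)).natAbs.Prime) →
        ∀ lam : ℝ, 0 < lam → ∀ M : ℕ → ℕ, (∀ n, X < n → n ≤ X + Y →
          Ch A (1 / Real.log X ^ k) (Real.log X ^ k) Y n lam (M n)) →
            ∑ n ∈ Ioc X (X + Y), (M n : ℝ) ≤ K * Y / lam ^ 2 := by
  classical
  obtain ⟨v, Cv, hv, hCv, hVb⟩ := V_bounds g hS
  rw [Fintype.card_fin] at hVb
  obtain ⟨T, hT⟩ := coeff_bd g
  obtain ⟨c, hc, m0, hm0⟩ := grow_all g hS.deg
  -- the constants
  set d : ℕ := ∑ i, (g i).natDegree with hd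
  have hd1 : 1 ≤ d := by
    have h1 : 0 < (g ⟨0, hk⟩).natDegree := hS.deg _
    have h2 : (g ⟨0, hk⟩).natDegree ≤ d := Finset.single_le_sum (f := fun i => (g i).natDegree)
      (fun _ _ => Nat.zero_le _) (mem_univ _)
    omega
  set C : ℕ := ⌈1 / v⌉₊ + 1 with hC
  have hC1 : 1 ≤ C := by omega
  have hCv1 : 1 / v ≤ C := by
    have := Nat.le_ceil (1 / v)
    rw [hC]; push_cast; linarith
  have hCr : (1 : ℝ) ≤ C := by exact_mod_cast hC1
  obtain ⟨K, hK, hev⟩ := h k d C 2 hk hd1 hC1 (by norm_num)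
  obtain ⟨Y0, hY0⟩ := eventually_atTop.1 hev
  set B : ℝ := Cv / θ ^ k with hB
  have hBpos : 0 < B := by positivity
  refine ⟨K * B ^ 2, by positivity, ?_⟩
  -- large X
  have hYl : ∀ᶠ X : ℕ in atTop, max (max (Y0 : ℝ) 3) (max T (c ^ 2 + 1)) ≤ (X : ℝ) ^ θ :=
    ((tendsto_rpow_atTop hθ).comp tendsto_natCast_atTop_atTop).eventually_ge_atTop _
  filter_upwards [hYl, eventually_ge_atTop m0, eventually_ge_atTop 3] with X hX1 hX2 hX3
  intro Y hY1 hY2 A hA lam hlam M hM
  have hYr := hX1.trans hY1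
  simp only [max_le_iff] at hYr
  obtain ⟨⟨hYa, hYb⟩, hYc, hYd⟩ := hYr
  have hY00 : Y0 ≤ Y := by exact_mod_cast hYa
  have hY3 : 3 ≤ Y := by exact_mod_cast hYb
  have hYX : (Y : ℝ) ≤ X := by exact_mod_cast hY2
  have hlogY : 1 ≤ Real.log Y := by
    rw [Real.le_log_iff_exp_le (by linarith)]
    have := Real.exp_one_lt_d9
    linarith
  have hlogYX : Real.log Y ≤ Real.log X := Real.log_le_log (by linarith) hYX
  have hlogX : 1 ≤ Real.log X := hlogY.trans hlogYX
  have hlogθ : θ * Real.log X ≤ Real.log Y := by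
    have hX0 : (0 : ℝ) < X := by linarith
    rw [← Real.log_rpow hX0]
    exact Real.log_le_log (by positivity) hY1
  obtain ⟨hV1, hV2⟩ := hVb Y hY3
  rw [← V_eq] at hV1 hV2
  set W : ℝ := V g Y with hW
  have hLk : 0 < Real.log Y ^ k := by positivity
  have hXk : 0 < Real.log X ^ k := by positivity
  have hWpos : 0 < W := lt_of_lt_of_le (by positivity) hV1
  have hWB : W * Real.log X ^ k ≤ B := by
    have h1 : W * Real.log X ^ k ≤ Cv / Real.log Y ^ k * Real.log X ^ k :=
      mul_le_mul_of_nonneg_right hV2 hXk.le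
    refine h1.trans ?_
    rw [hB, div_mul_eq_mul_div, div_le_div_iff₀ hLk (by positivity)]
    rw [mul_assoc]
    apply mul_le_mul_of_nonneg_left _ hCv.le
    rw [← mul_pow, mul_comm (Real.log X) θ]
    exact pow_le_pow_left₀ (by positivity) hlogθ k
  have hSysH : SysH k d ((Y : ℝ) ^ C) g := by
    refine ⟨hS, fun i => ?_, fun i j => ?_⟩
    · exact Finset.single_le_sum (f := fun i => (g i).natDegree) (fun _ _ => Nat.zero_le _)
        (mem_univ i)
    · refine (hT i j).trans (hYc.trans ?_)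
      have : (1 : ℝ) ≤ Y := by linarith
      exact le_self_pow₀ this (by omega)
  have hRough : Rough g A ((Y : ℝ) ^ (1 / ((2 : ℕ) : ℝ))) X (X + 3 * Y) := by
    intro m hm h1 _ i p hp hpd
    have h2 := hA m hm i
    have h3 : p ∣ ((g i).eval (m : ℤ)).natAbs := Int.natCast_dvd.1 hpd
    have h4 : p = ((g i).eval (m : ℤ)).natAbs := (Nat.prime_dvd_prime_iff_eq hp h2).1 h3
    have h5 := hm0 m (by omega) i
    rw [← h4] at h5
    have h6 : (X : ℝ) < m := by exact_mod_cast h1
    have h7 : (Y : ℝ) < c * p := by linarith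
    rw [show (1 / ((2 : ℕ) : ℝ)) = 1 / 2 by norm_num, ← Real.sqrt_eq_rpow]
    rw [Real.sqrt_lt' (by exact_mod_cast hp.pos)]
    have h8 : (Y : ℝ) ^ 2 < (c * p) ^ 2 := by
      apply pow_lt_pow_left₀ h7 (by linarith) (by norm_num)
    have h9 : c ^ 2 * Y < c ^ 2 * (p : ℝ) ^ 2 := by
      calc c ^ 2 * (Y : ℝ) ≤ Y * Y := by
            apply mul_le_mul_of_nonneg_right _ (by linarith)
            linarith
        _ = (Y : ℝ) ^ 2 := by ring
        _ < (c * p) ^ 2 := h8
        _ = c ^ 2 * (p : ℝ) ^ 2 := by ring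
    exact lt_of_mul_lt_mul_left h9 (by positivity)
  have hfin := hY0 Y hY00 g hSysH X A hRough (lam / B) (by positivity) M ?_
  · refine hfin.trans (le_of_eq ?_)
    field_simp
  · intro n hn1 hn2
    obtain ⟨s, t, h1, h2⟩ := hM n hn1 hn2
    refine ⟨s, t, fun i hi => ?_, h2⟩
    obtain ⟨a1, a2, a3, a4⟩ := h1 i hi
    refine ⟨?_, a2, a3, ?_⟩
    · refine le_trans ?_ a1
      rw [div_le_iff₀ (by linarith)]
      apply max_le
      · calc Real.log Y ≤ Real.log X := hlogYX
          _ ≤ Real.log X ^ k := le_self_pow₀ hlogX (by omega)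
          _ = Real.log X ^ k * 1 := (mul_one _).symm
          _ ≤ Real.log X ^ k * C := by gcongr
      · calc 1 / W ≤ 1 / (v / Real.log Y ^ k) := by
              apply one_div_le_one_div_of_le (by positivity) hV1
          _ = Real.log Y ^ k * (1 / v) := by field_simp
          _ ≤ Real.log X ^ k * C := by
              apply mul_le_mul _ hCv1 (by positivity) hXk.le
              exact pow_le_pow_left₀ (by linarith) hlogYX k
    · have e : ∀ H, dens A (1 / Real.log X ^ k) n H = dens A W n H * (W * Real.log X ^ k) := by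
        intro H
        rw [dens_eq A n H W (1 / Real.log X ^ k) hWpos.ne' (by positivity)]
        congr 1
        rw [div_div_eq_mul_div, div_one]
      rw [e, e, ← sub_mul, abs_mul, abs_of_pos (mul_pos hWpos hXk)] at a4
      rw [div_le_iff₀ hBpos]
      exact a4.trans (mul_le_mul_of_nonneg_left hWB (abs_nonneg _))

end Pool.Agent.N610.JW.COR

namespace Pool.Agent.N610.JW

open Polynomial Finset Filter
open Pool.Agent.W123.RU.Poly (Sys)

open COR in
theorem t_COR (h : S_UNI) : S_COR := by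
  classical
  intro k f hk hirr hdeg hne θ hθ hθ1
  set g : Fin k → ℤ[X] := fun i => if 0 < (f i).leadingCoeff then f i else - f i with hg
  have hgf : ∀ i, g i = f i ∨ g i = - f i := by
    intro i
    by_cases h : 0 < (f i).leadingCoeff
    · left; simp [hg, h]
    · right; simp [hg, h]
  have hnat : ∀ i (m : ℤ), ((g i).eval m).natAbs = ((f i).eval m).natAbs := by
    intro i m
    rcases hgf i with h | h
    · rw [h]
    · rw [h, eval_neg, Int.natAbs_neg]
  have gdeg : ∀ i, 0 < (g i).natDegree := by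
    intro i
    rcases hgf i with h | h
    · rw [h]; exact hdeg i
    · rw [h, natDegree_neg]; exact hdeg i
  by_cases hadm : ∀ p : ℕ, p.Prime → ∃ m : ℕ, ∀ i, ¬ (p : ℤ) ∣ (g i).eval (m : ℤ)
  · have hS : Sys g := by
      refine ⟨?_, gdeg, ?_, ?_, hadm⟩
      · intro i
        rcases hgf i with h | h
        · rw [h]; exact hirr i
        · rw [h]; exact (Associated.refl (f i)).neg_right.irreducible (hirr i)
      · intro i
        by_cases h : 0 < (f i).leadingCoeff
        · simp [hg, h]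
        · have h0 : (f i).leadingCoeff ≠ 0 := by
            rw [Ne, leadingCoeff_eq_zero]
            exact (hirr i).ne_zero
          simp only [hg, if_neg h, leadingCoeff_neg]
          omega
      · intro i j hij
        by_contra hc
        obtain ⟨n1, n2⟩ := hne i j hc
        rcases hgf i with h | h <;> rcases hgf j with h' | h' <;> rw [h, h'] at hij
        · exact n1 hij
        · exact n2 hij
        · apply n2; rw [← hij, neg_neg]
        · exact n1 (neg_injective hij)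
    obtain ⟨K, hK, hev⟩ := main h k g hk hS θ hθ hθ1
    refine ⟨K, hK, ?_⟩
    filter_upwards [hev] with X hX Y hY1 hY2 A hA
    refine hX Y hY1 hY2 A ?_
    intro m hm i
    rw [hnat]
    exact hA m hm i
  · push Not at hadm
    obtain ⟨p, hp, hbad⟩ := hadm
    obtain ⟨c, hc, m0, hm0⟩ := grow_all g gdeg
    refine ⟨1, one_pos, ?_⟩
    filter_upwards [eventually_ge_atTop (max m0 ⌈c * p⌉₊)] with X hX Y hY1 hY2 A hA lam hlam M hM
    have hAb : ∀ m ∈ A, m ≤ max m0 ⌈c * p⌉₊ := by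
      intro m hm
      by_contra hcon
      push Not at hcon
      obtain ⟨h1, h2⟩ := max_lt_iff.1 hcon
      obtain ⟨i, hi⟩ := hbad m
      have h3 := hA m hm i
      rw [← hnat] at h3
      have h4 : p ∣ ((g i).eval (m : ℤ)).natAbs := Int.natCast_dvd.1 hi
      have h5 : p = ((g i).eval (m : ℤ)).natAbs := (Nat.prime_dvd_prime_iff_eq hp h3).1 h4
      have h6 := hm0 m h1.le i
      rw [← h5] at h6
      have h7 := Nat.lt_of_ceil_lt h2
      linarith
    have hz : ∀ n ∈ Ioc X (X + Y), (M n : ℝ) = 0 := by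
      intro n hn
      rw [mem_Ioc] at hn
      have := ch_zero A _ _ lam Y n (M n) _ hAb (hX.trans hn.1.le) hlam (hM n hn.1 hn.2)
      exact_mod_cast this
    rw [Finset.sum_eq_zero hz]
    positivity

end Pool.Agent.N610.JW
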