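import Pool.Agent.N610.JW.Stm
import Pool.Agent.TH464.PW.Input
import Pool.Agent.W123.PP.SieveE
import Pool.Agent.W123.RP.Mert

set_option autoImplicit false

/-!
# Second moment of the number of rough values in short intervals (JW/MOM)
-/

namespace Pool.Agent.N610.JW

open Polynomial Finset Filter
open Pool.Agent.H373R2.T7 Pool.Agent.W123.RP Pool.Agent.W123.RU Pool.Agent.W123.RU.Poly
open Pool.Agent.N610.JV (count)
open Pool.Agent.TH464.PW (Qs)

namespace MOM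

/-- `V` is the sieve product of the system -/
lemma V_eq {k : ℕ} (f : Fin k → ℤ[X]) (Y : ℕ) : V f Y = Vq (Q f) Y := by
  unfold V Vq pz
  apply Finset.prod_congr rfl
  intro p _
  have : om f p = nuB (Q f) p := by
    unfold om nuB Q
    congr
  rw [this]

/-- one large factor -/
lemma fac_ge (c p n : ℕ) (hp2 : 2 ≤ p) (hcp : 2 * c ≤ p) (hn : n ≤ c) :
    (1 - 1 / (p : ℝ)) ^ (2 * c) ≤ 1 - (n : ℝ) / p := by
  have hp : (2 : ℝ) ≤ p := by exact_mod_cast hp2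
  have hp0 : (0 : ℝ) < p := by linarith
  have hcp' : 2 * (c : ℝ) ≤ p := by exact_mod_cast hcp
  have hn' : (n : ℝ) ≤ c := by exact_mod_cast hn
  have hc0 : (0 : ℝ) ≤ c := Nat.cast_nonneg c
  set u : ℝ := 1 / (p : ℝ) with hu
  have hu0 : 0 < u := by positivity
  have hu1 : u ≤ 1 / 2 := by
    rw [hu]
    exact one_div_le_one_div_of_le (by norm_num) hp
  have hcu : 2 * c * u ≤ 1 := by
    rw [hu, mul_one_div, div_le_one hp0]
    exact hcp'
  have h1 : (1 - u) ^ (2 * c) * (1 + 2 * c * u) ≤ 1 := by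
    have hb : 1 + ((2 * c : ℕ) : ℝ) * u ≤ (1 + u) ^ (2 * c) :=
      one_add_mul_le_pow (by linarith) (2 * c)
    have hb' : 1 + 2 * c * u ≤ (1 + u) ^ (2 * c) := by
      push_cast at hb
      exact hb
    calc (1 - u) ^ (2 * c) * (1 + 2 * c * u) ≤ (1 - u) ^ (2 * c) * (1 + u) ^ (2 * c) := by
          apply mul_le_mul_of_nonneg_left hb' (pow_nonneg (by linarith) _)
      _ = ((1 - u) * (1 + u)) ^ (2 * c) := (mul_pow _ _ _).symm
      _ ≤ 1 := pow_le_one₀ (by nlinarith) (by nlinarith)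
  have h2 : 1 ≤ (1 - c * u) * (1 + 2 * c * u) := by
    have : 0 ≤ c * u := by positivity
    nlinarith
  have h3 : (1 - u) ^ (2 * c) ≤ 1 - c * u := by
    have h4 : 0 < 1 + 2 * c * u := by positivity
    exact le_of_mul_le_mul_right (h1.trans h2) h4
  refine h3.trans ?_
  have : (n : ℝ) / p ≤ c * u := by
    rw [hu, mul_one_div]
    gcongr
  linarith

lemma pz_sub {y Y : ℕ} (h : y ≤ Y) : pz y ⊆ pz Y := by
  intro p hp
  rw [mem_pz] at hp ⊢
  exact ⟨hp.1.trans h, hp.2⟩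

lemma Vz_pos (y : ℕ) : 0 < Vz y := by
  apply Finset.prod_pos
  intro p hp
  have : (2 : ℝ) ≤ p := by exact_mod_cast (mem_pz.1 hp).2.two_le
  rw [sub_pos, div_lt_one (by linarith)]
  linarith

lemma Vz_le_one (y : ℕ) : Vz y ≤ 1 := by
  apply Finset.prod_le_one
  · intro p hp
    have : (2 : ℝ) ≤ p := by exact_mod_cast (mem_pz.1 hp).2.two_le
    rw [sub_nonneg, div_le_one (by linarith)]
    linarith
  · intro p hp
    have : (0 : ℝ) ≤ 1 / (p : ℝ) := by positivity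
    linarith

lemma Vq_nonneg (Q : ℕ → ℕ → Prop) (y : ℕ) : 0 ≤ Vq Q y :=
  Finset.prod_nonneg fun p hp => one_sub_nonneg Q p (mem_pz.1 hp).2

lemma Vq_le_one (Q : ℕ → ℕ → Prop) (y : ℕ) : Vq Q y ≤ 1 := by
  apply Finset.prod_le_one
  · exact fun p hp => one_sub_nonneg Q p (mem_pz.1 hp).2
  · intro p hp
    have : (0 : ℝ) ≤ (nuB Q p : ℝ) / (p : ℝ) := by positivity
    linarith

/-- comparison of the products up to `y` and up to `Y` -/
lemma Vq_comp (Q : ℕ → ℕ → Prop) (c : ℕ) (hQ : PerB Q c) (y Y : ℕ) (hyY : y ≤ Y) (hy : 2 * c ≤ y) :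
    Vq Q y * (Vz Y / Vz y) ^ (2 * c) ≤ Vq Q Y := by
  have h1 : Vq Q Y = (∏ p ∈ pz Y \ pz y, (1 - (nuB Q p : ℝ) / p)) * Vq Q y := by
    unfold Vq
    exact (Finset.prod_sdiff (pz_sub hyY)).symm
  have h2 : Vz Y = (∏ p ∈ pz Y \ pz y, (1 - 1 / (p : ℝ))) * Vz y := by
    unfold Vz
    exact (Finset.prod_sdiff (pz_sub hyY)).symm
  have h3 : Vz Y / Vz y = ∏ p ∈ pz Y \ pz y, (1 - 1 / (p : ℝ)) := by
    rw [h2, mul_div_cancel_right₀ _ (Vz_pos y).ne']
  rw [h3, h1, mul_comm, ← Finset.prod_pow]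
  apply mul_le_mul_of_nonneg_right _ (Vq_nonneg Q y)
  apply Finset.prod_le_prod
  · intro p hp
    rw [Finset.mem_sdiff, mem_pz] at hp
    have : (2 : ℝ) ≤ p := by exact_mod_cast hp.1.2.two_le
    apply pow_nonneg
    rw [sub_nonneg, div_le_one (by linarith)]
    linarith
  · intro p hp
    rw [Finset.mem_sdiff, mem_pz, mem_pz, not_and] at hp
    have hpy : y < p := by
      by_contra hcon
      exact hp.2 (not_lt.1 hcon) hp.1.2
    exact fac_ge c p _ hp.1.2.two_le (by omega) (hQ.few p hp.1.2)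

/-- lower bound of the product -/
lemma Vq_lower (c : ℕ) : ∃ c1 : ℝ, 0 < c1 ∧ ∀ (Q : ℕ → ℕ → Prop), PerB Q c →
    (∀ p : ℕ, p.Prime → nuB Q p < p) → ∀ Y : ℕ, 2 * c ≤ Y → 2 ≤ Y →
      c1 / Real.log Y ^ (2 * c) ≤ Vq Q Y := by
  obtain ⟨a, b, ha, hb, hab⟩ := Vz_bounds
  refine ⟨(∏ p ∈ pz (2 * c), (1 / (p : ℝ))) * a ^ (2 * c), ?_, ?_⟩
  · apply mul_pos _ (pow_pos ha _)
    apply Finset.prod_pos
    intro p hp
    have : (0 : ℝ) < p := by exact_mod_cast (mem_pz.1 hp).2.pos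
    positivity
  · intro Q hQ hadm Y hY hY2
    refine le_trans ?_ (Vq_comp Q c hQ (2 * c) Y hY le_rfl)
    have h1 : ∏ p ∈ pz (2 * c), (1 / (p : ℝ)) ≤ Vq Q (2 * c) := by
      apply Finset.prod_le_prod
      · intro p hp
        positivity
      · intro p hp
        have hpp := (mem_pz.1 hp).2
        have hp0 : (0 : ℝ) < p := by exact_mod_cast hpp.pos
        have h2 : (nuB Q p : ℝ) + 1 ≤ p := by exact_mod_cast hadm p hpp
        rw [le_sub_iff_add_le, ← add_div, div_le_one hp0]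
        linarith
    have hlog : 0 < Real.log Y := Real.log_pos (by exact_mod_cast (by omega : 1 < Y))
    have h2 : a / Real.log Y ≤ Vz Y / Vz (2 * c) := by
      refine (hab Y hY2).1.trans ?_
      rw [le_div_iff₀ (Vz_pos _)]
      exact mul_le_of_le_one_right (Vz_pos Y).le (Vz_le_one _)
    calc (∏ p ∈ pz (2 * c), (1 / (p : ℝ))) * a ^ (2 * c) / Real.log Y ^ (2 * c)
        = (∏ p ∈ pz (2 * c), (1 / (p : ℝ))) * (a / Real.log Y) ^ (2 * c) := by
          rw [div_pow]; ring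
      _ ≤ Vq Q (2 * c) * (Vz Y / Vz (2 * c)) ^ (2 * c) := by
          apply mul_le_mul h1 _ (by positivity) (Vq_nonneg _ _)
          exact pow_le_pow_left₀ (by positivity) h2 _

/-- upper bound for the product up to a small power -/
lemma Vq_upper (c : ℕ) (R : ℝ) (hR : 1 ≤ R) : ∃ C3 : ℝ, 0 < C3 ∧ ∀ (Q : ℕ → ℕ → Prop), PerB Q c →
    ∀ y Y : ℕ, 2 * c ≤ y → 2 ≤ y → y ≤ Y → Real.log Y ≤ R * Real.log y →
      Vq Q y ≤ C3 * Vq Q Y := by
  obtain ⟨a, b, ha, hb, hab⟩ := Vz_bounds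
  refine ⟨(b * R / a) ^ (2 * c), by positivity, ?_⟩
  intro Q hQ y Y hyc hy2 hyY hlog
  have h1 := Vq_comp Q c hQ y Y hyY hyc
  have hly : 0 < Real.log y := Real.log_pos (by exact_mod_cast (by omega : 1 < y))
  have hlY : 0 < Real.log Y := Real.log_pos (by exact_mod_cast (by omega : 1 < Y))
  have h2 : a / (b * R) ≤ Vz Y / Vz y := by
    rw [div_le_div_iff₀ (by positivity) (Vz_pos y)]
    have e1 := (hab Y (by omega)).1
    have e2 := (hab y hy2).2
    calc a * Vz y ≤ a * (b / Real.log y) := by gcongr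
      _ ≤ (a / Real.log Y) * (b * R) := by
        rw [mul_div_assoc', div_mul_eq_mul_div, div_le_div_iff₀ hly hlY]
        have : a * b * Real.log Y ≤ a * b * (R * Real.log y) := by gcongr
        linarith
      _ ≤ Vz Y * (b * R) := by gcongr
  have h3 : (a / (b * R)) ^ (2 * c) ≤ (Vz Y / Vz y) ^ (2 * c) :=
    pow_le_pow_left₀ (by positivity) h2 _
  have h4 : Vq Q y * (a / (b * R)) ^ (2 * c) ≤ Vq Q Y :=
    (mul_le_mul_of_nonneg_left h3 (Vq_nonneg Q y)).trans h1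
  have h5 : (b * R / a) ^ (2 * c) * (a / (b * R)) ^ (2 * c) = 1 := by
    rw [← mul_pow]
    have : b * R / a * (a / (b * R)) = 1 := by
      field_simp
    rw [this, one_pow]
  calc Vq Q y = (b * R / a) ^ (2 * c) * (Vq Q y * (a / (b * R)) ^ (2 * c)) := by
        rw [mul_left_comm, h5, mul_one]
    _ ≤ (b * R / a) ^ (2 * c) * Vq Q Y := by gcongr

/-- the final computation -/
lemma alg (T Y W w s a S S1 S2 Cp C3 C k : ℝ) (hT0 : 0 ≤ T) (hY : 0 ≤ Y) (hW0 : 0 ≤ W) (_hW1 : W ≤ 1)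
    (hw0 : 0 ≤ w) (_hs0 : 0 ≤ s) (_ha0 : 0 ≤ a) (hCp : 0 ≤ Cp) (hC3 : 0 ≤ C3) (_hC : 0 ≤ C)
    (hCT : 1 ≤ C * T * W) (hwW : w ≤ C3 * W) (hsW : s ≤ W ^ 2 * Y)
    (ha2 : a ≤ (8 * C3 + 2) * (W * Y))
    (hs2 : S2 ≤ Cp * T * (4 * Y) * w ^ 2 + T * (2 * s)) (hs1 : S1 ≤ k ^ 2 * a)
    (hS : S = S1 + S2) :
    T * (a + 2 * S) ≤ ((1 + 2 * k ^ 2) * ((8 * C3 + 2) * C) + 8 * Cp * C3 ^ 2 + 4) *
      (T * W) ^ 2 * Y := by
  have hTa : T * a ≤ (8 * C3 + 2) * C * ((T * W) ^ 2 * Y) := by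
    have h3 : T * a ≤ T * ((8 * C3 + 2) * (W * Y)) := by gcongr
    have h4 : T * W ≤ C * (T * W) ^ 2 := by
      calc T * W = 1 * (T * W) := (one_mul _).symm
        _ ≤ (C * T * W) * (T * W) := by gcongr
        _ = C * (T * W) ^ 2 := by ring
    calc T * a ≤ T * ((8 * C3 + 2) * (W * Y)) := h3
      _ = (8 * C3 + 2) * (T * W) * Y := by ring
      _ ≤ (8 * C3 + 2) * (C * (T * W) ^ 2) * Y := by gcongr
      _ = _ := by ring
  have hT2 : T * (Cp * T * (4 * Y) * w ^ 2) ≤ 4 * Cp * C3 ^ 2 * ((T * W) ^ 2 * Y) := by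
    calc T * (Cp * T * (4 * Y) * w ^ 2) ≤ T * (Cp * T * (4 * Y) * (C3 * W) ^ 2) := by gcongr
      _ = _ := by ring
  have hT3 : T * (T * (2 * s)) ≤ 2 * ((T * W) ^ 2 * Y) := by
    calc T * (T * (2 * s)) ≤ T * (T * (2 * (W ^ 2 * Y))) := by gcongr
      _ = _ := by ring
  have hfin : S ≤ k ^ 2 * a + (Cp * T * (4 * Y) * w ^ 2 + T * (2 * s)) := by
    rw [hS]
    linarith
  have hTk : T * (k ^ 2 * a) ≤ k ^ 2 * ((8 * C3 + 2) * C * ((T * W) ^ 2 * Y)) := by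
    calc T * (k ^ 2 * a) = k ^ 2 * (T * a) := by ring
      _ ≤ _ := by gcongr
  calc T * (a + 2 * S)
      ≤ T * (a + 2 * (k ^ 2 * a + (Cp * T * (4 * Y) * w ^ 2 + T * (2 * s)))) := by gcongr
    _ = T * a + 2 * (T * (k ^ 2 * a)) + 2 * (T * (Cp * T * (4 * Y) * w ^ 2)) +
        2 * (T * (T * (2 * s))) := by ring
    _ ≤ (8 * C3 + 2) * C * ((T * W) ^ 2 * Y) +
        2 * (k ^ 2 * ((8 * C3 + 2) * C * ((T * W) ^ 2 * Y))) +
        2 * (4 * Cp * C3 ^ 2 * ((T * W) ^ 2 * Y)) + 2 * (2 * ((T * W) ^ 2 * Y)) := by linarith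
    _ = _ := by ring

end MOM

open MOM

open Classical in
theorem t_MOM (h : S_COL) : S_MOM := by
  intro k d C r hk hd hC hr
  obtain ⟨c, hc⟩ : ∃ c, c = k * d := ⟨_, rfl⟩
  have hc1 : 1 ≤ c := by rw [hc]; exact Nat.mul_pos hk hd
  obtain ⟨D', hcol⟩ := h k d C hk hd hC
  rw [← hc] at hcol
  obtain ⟨K1, hK1, Cp, hCp, x0, hpair⟩ := pair_sum c (2 * c) (c ^ 2) D' hc1
  obtain ⟨R, hRdef⟩ : ∃ R, R = max K1 r + 1 := ⟨_, rfl⟩
  have hRK : K1 ≤ R := by
    have := le_max_left K1 r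
    omega
  have hRr : r ≤ R := by
    have := le_max_right K1 r
    omega
  have hR2 : 2 ≤ R := by
    have := le_max_right K1 r
    omega
  have hRR : (2 : ℝ) ≤ R := by exact_mod_cast hR2
  have hRpos : (0 : ℝ) < R := by linarith
  obtain ⟨C3, hC3, hup⟩ := Vq_upper c (2 * R) (by linarith)
  obtain ⟨c1, hc10, hlow⟩ := Vq_lower c
  have hC0 : (1 : ℝ) ≤ C := by exact_mod_cast hC
  obtain ⟨C2, hC2⟩ : ∃ C2 : ℝ, C2 = (1 + 2 * (k : ℝ) ^ 2) * ((8 * C3 + 2) * C) + 8 * Cp * C3 ^ 2 + 4 :=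
    ⟨_, rfl⟩
  have hC20 : 0 < C2 := by
    rw [hC2]
    positivity
  refine ⟨C2, hC20, ?_⟩
  have hXr : Tendsto (fun X : ℕ => (X : ℝ)) atTop atTop := tendsto_natCast_atTop_atTop
  have hpow2 : Tendsto (fun X : ℕ => (X : ℝ) ^ (1 / (2 * R : ℝ))) atTop atTop :=
    (tendsto_rpow_atTop (by positivity)).comp hXr
  have hlogX : Tendsto (fun X : ℕ => Real.log (X : ℝ)) atTop atTop :=
    Real.tendsto_log_atTop.comp hXr
  filter_upwards [hcol, eventually_ge_atTop (2 * c + 4),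
    hpow2.eventually_ge_atTop ((x0 : ℝ) + 2 * c + 2), hlogX.eventually_ge_atTop (C * (x0 : ℝ) + 1),
    logpow_le (8 * c) (1 / c1 ^ 4) (by positivity)] with Y hY1 hY2 hY3 hY4 hY5
  intro f hf N A hA T hTY hlogT hCT
  obtain ⟨hPer, hE⟩ := hY1 f hf
  obtain ⟨E0, hE0, hE1⟩ := hE T hlogT hTY
  have hsys : Sys f := hf.1
  have hYr : (4 : ℝ) ≤ Y := by exact_mod_cast (by omega : 4 ≤ Y)
  have hYpos : (0 : ℝ) < Y := by linarith
  have hYone : (1 : ℝ) ≤ Y := by linarith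
  have hx00 : (0 : ℝ) ≤ x0 := Nat.cast_nonneg _
  have hcr : (0 : ℝ) ≤ c := Nat.cast_nonneg _
  obtain ⟨hy1, hy2, hy3, hy4⟩ := level_low R hR2 Y (by omega) (by linarith)
  obtain ⟨y, hydef⟩ : ∃ y, y = ⌊(Y : ℝ) ^ (1 / (R : ℝ))⌋₊ := ⟨_, rfl⟩
  rw [← hydef] at hy1 hy2 hy3 hy4
  have hyup : (y : ℝ) ≤ (Y : ℝ) ^ (1 / (R : ℝ)) := by
    rw [hydef]
    exact Nat.floor_le (by positivity)
  have hyx0 : x0 ≤ y := by
    have : (x0 : ℝ) ≤ y := by linarith
    exact_mod_cast this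
  have hyc : 2 * c ≤ y := by
    have : 2 * (c : ℝ) ≤ y := by linarith
    exact_mod_cast this
  have hyY : y ≤ Y := by
    have h1 : (Y : ℝ) ^ (1 / (R : ℝ)) ≤ Y := by
      calc (Y : ℝ) ^ (1 / (R : ℝ)) ≤ (Y : ℝ) ^ (1 : ℝ) := by
            apply Real.rpow_le_rpow_of_exponent_le hYone
            rw [div_le_one hRpos]; linarith
        _ = Y := Real.rpow_one _
    exact_mod_cast hyup.trans h1
  have hyR : y ^ R ≤ Y := by
    have : ((y ^ R : ℕ) : ℝ) ≤ Y := by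
      push_cast
      calc (y : ℝ) ^ R ≤ ((Y : ℝ) ^ (1 / (R : ℝ))) ^ R := pow_le_pow_left₀ (by positivity) hyup R
        _ = Y := by
          rw [← Real.rpow_natCast, ← Real.rpow_mul hYpos.le]
          rw [one_div, inv_mul_cancel₀ hRpos.ne', Real.rpow_one]
    exact_mod_cast this
  have hyK : y ^ K1 ≤ 4 * Y := by
    calc y ^ K1 ≤ y ^ R := Nat.pow_le_pow_right (by omega) hRK
      _ ≤ Y := hyR
      _ ≤ 4 * Y := by omega
  -- the sieve products
  obtain ⟨W, hW⟩ : ∃ W, W = V f Y := ⟨_, rfl⟩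
  rw [← hW] at hCT ⊢
  have hW' : W = Vq (Q f) Y := by rw [hW, V_eq]
  have hW0 : 0 ≤ W := by rw [hW']; exact Vq_nonneg _ _
  have hW1 : W ≤ 1 := by rw [hW']; exact Vq_le_one _ _
  obtain ⟨w, hw⟩ : ∃ w, w = Vq (Qs f N) y := ⟨_, rfl⟩
  have hw' : w = Vq (Q f) y := by rw [hw, Pool.Agent.TH464.PW.Vq_Qs f c hPer]
  have hw0 : 0 ≤ w := by rw [hw]; exact Vq_nonneg _ _
  have hlogyY : Real.log Y ≤ 2 * R * Real.log y := by
    rw [div_le_iff₀ (by positivity)] at hy2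
    linarith
  have hwW : w ≤ C3 * W := by
    rw [hw', hW']
    exact hup (Q f) hPer y Y hyc hy4 hyY hlogyY
  have hadm : ∀ p : ℕ, p.Prime → nuB (Q f) p < p := fun p hp => adm f hsys p hp
  have hWlow : c1 / Real.log Y ^ (2 * c) ≤ W := by
    rw [hW']
    exact hlow (Q f) hPer hadm Y (by omega) (by omega)
  have hlY1 : 1 ≤ Real.log Y := by
    have : 0 ≤ C * (x0 : ℝ) := by positivity
    linarith
  have hlY0 : 0 < Real.log Y := by linarith
  obtain ⟨s, hs⟩ : ∃ s, s = √(Y : ℝ) := ⟨_, rfl⟩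
  have hs0 : 0 < s := by rw [hs]; exact Real.sqrt_pos.2 hYpos
  have hss : s * s = Y := by rw [hs]; exact Real.mul_self_sqrt hYpos.le
  have hsW : s ≤ W ^ 2 * Y := by
    have h1 : 1 ≤ W ^ 2 * s := by
      have h2 : (1 : ℝ) ≤ (W ^ 2 * s) ^ 2 := by
        have h3 : (c1 / Real.log Y ^ (2 * c)) ^ 4 * Y ≤ (W ^ 2 * s) ^ 2 := by
          calc (c1 / Real.log Y ^ (2 * c)) ^ 4 * Y ≤ W ^ 4 * Y := by
                gcongr
            _ = (W ^ 2 * s) ^ 2 := by rw [← hss]; ring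
        refine le_trans ?_ h3
        have h4 : (c1 / Real.log Y ^ (2 * c)) ^ 4 = c1 ^ 4 / Real.log Y ^ (8 * c) := by
          rw [div_pow, ← pow_mul]
          congr 2
          ring
        rw [h4, div_mul_eq_mul_div, le_div_iff₀ (by positivity), one_mul]
        rw [one_div, inv_mul_le_iff₀ (by positivity)] at hY5
        exact hY5
      have h5 : 0 ≤ W ^ 2 * s := by positivity
      by_contra hcon
      rw [not_le] at hcon
      have := pow_lt_one₀ h5 hcon two_ne_zero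
      linarith
    calc s = 1 * s := (one_mul _).symm
      _ ≤ (W ^ 2 * s) * s := by gcongr
      _ = W ^ 2 * Y := by rw [mul_assoc, hss]
  have hsqrt : √(((4 * Y : ℕ) : ℝ)) = 2 * s := by
    rw [hs]
    push_cast
    rw [Real.sqrt_mul (by norm_num)]
    congr 1
    rw [show (4 : ℝ) = 2 ^ 2 by norm_num]
    exact Real.sqrt_sq (by norm_num)
  -- the shifted set
  obtain ⟨P', hP'⟩ : ∃ P' : ℕ → Prop, P' = fun v => v + N ∈ A ∧ v ≤ 3 * Y := ⟨_, rfl⟩
  have hP'Q : ∀ v, P' v → 1 ≤ v → ∀ p ∈ pz y, ¬ Qs f N p v := by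
    intro v hv hv1 p hp hq
    rw [hP'] at hv
    obtain ⟨i, hi⟩ := hq
    have h1 := hA (v + N) hv.1 (by omega) (by omega) i p (mem_pz.1 hp).2 hi
    have h2 : (p : ℝ) ≤ y := by exact_mod_cast (mem_pz.1 hp).1
    have h3 : (Y : ℝ) ^ (1 / (R : ℝ)) ≤ (Y : ℝ) ^ (1 / (r : ℝ)) := by
      apply Real.rpow_le_rpow_of_exponent_le hYone
      apply one_div_le_one_div_of_le
      · exact_mod_cast hr
      · exact_mod_cast hRr
    linarith
  obtain ⟨hcnt, hpairs⟩ := hpair (4 * Y) y hyx0 hyK (Qs f N) (CoG (Q f))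
    (Pool.Agent.TH464.PW.sdata_Qs f hsys c hPer N)
  rw [← hw, hsqrt] at hcnt
  have hT0 : (0 : ℝ) ≤ T := Nat.cast_nonneg T
  have hTx0 : x0 ≤ T := by
    have h1 : (C : ℝ) * x0 ≤ C * T := by linarith
    have h2 : (x0 : ℝ) ≤ T := le_of_mul_le_mul_left h1 (by linarith)
    exact_mod_cast h2
  -- passing to the shifted set
  have hsum : ∑ n ∈ Ico N (N + 2 * Y + 1), (count A n (n + T) : ℝ) ^ 2 =
      ∑ v ∈ Ico 0 (0 + (2 * Y + 1)), ((co P' v (v + T)) : ℝ) ^ 2 := by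
    have e1 : ∑ n ∈ Ico N (N + 2 * Y + 1), (count A n (n + T) : ℝ) ^ 2 =
        ∑ v ∈ Ico 0 (2 * Y + 1), (count A (N + v) (N + v + T) : ℝ) ^ 2 := by
      rw [Finset.sum_Ico_add (fun n => (count A n (n + T) : ℝ) ^ 2) 0 (2 * Y + 1) N]
      congr 1
      congr 1 <;> omega
    rw [e1, zero_add]
    apply Finset.sum_congr rfl
    intro v hv
    rw [mem_Ico] at hv
    have e2 : count A (N + v) (N + v + T) = co P' v (v + T) := by
      unfold count co
      symm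
      apply Finset.card_bij (fun m _ => N + m)
      · intro m hm
        rw [mem_filter, mem_Ioc] at hm ⊢
        obtain ⟨⟨hm1, hm2⟩, hm3⟩ := hm
        rw [hP'] at hm3
        refine ⟨⟨by omega, by omega⟩, ?_⟩
        rw [add_comm]
        exact hm3.1
      · intro a _ b _ hab
        omega
      · intro b hb
        rw [mem_filter, mem_Ioc] at hb
        refine ⟨b - N, ?_, by omega⟩
        rw [mem_filter, mem_Ioc, hP']
        refine ⟨⟨by omega, by omega⟩, ?_, by omega⟩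
        rw [Nat.sub_add_cancel (by omega)]
        exact hb.2
    rw [e2]
  rw [hsum]
  have h1 := second_moment (P := P') 0 (2 * Y + 1) T
  have h1r : ∑ v ∈ Ico 0 (0 + (2 * Y + 1)), ((co P' v (v + T)) : ℝ) ^ 2 ≤
      T * ((co P' 0 (0 + (2 * Y + 1 + T)) : ℝ) + 2 * ∑ h ∈ Finset.Icc 1 T,
      (((Finset.Ioc 0 (0 + (2 * Y + 1 + T))).filter (fun n => P' n ∧ P' (n + h))).card : ℝ)) := by
    exact_mod_cast h1
  refine h1r.trans ?_
  -- the first moment
  obtain ⟨a, ha⟩ : ∃ a : ℝ, a = (co P' 0 (0 + (2 * Y + 1 + T)) : ℝ) := ⟨_, rfl⟩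
  have ha1 : a ≤ 8 * Y * w + 2 * s := by
    refine le_trans ?_ (hcnt.trans (le_of_eq (by push_cast; ring)))
    rw [ha]
    have : co P' 0 (0 + (2 * Y + 1 + T)) ≤
        ((Icc 1 (4 * Y)).filter (fun m => ∀ p ∈ pz y, ¬ Qs f N p m)).card := by
      unfold co
      apply card_le_card
      intro m hm
      rw [mem_filter, mem_Ioc] at hm
      rw [mem_filter, mem_Icc]
      exact ⟨⟨by omega, by omega⟩, hP'Q m hm.2 (by omega)⟩
    exact_mod_cast this
  have ha0 : 0 ≤ a := by rw [ha]; exact Nat.cast_nonneg _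
  have ha2 : a ≤ (8 * C3 + 2) * (W * Y) := by
    have h3 : 8 * Y * w ≤ 8 * Y * (C3 * W) := by gcongr
    have h4 : W ^ 2 * Y ≤ W * Y := by
      have : W ^ 2 ≤ W := by
        rw [sq]
        exact mul_le_of_le_one_left hW0 hW1
      gcongr
    calc a ≤ 8 * Y * w + 2 * s := ha1
      _ ≤ 8 * Y * (C3 * W) + 2 * (W * Y) := by linarith
      _ = (8 * C3 + 2) * (W * Y) := by ring
  rw [← ha]
  -- the pairs
  set F : ℕ → ℝ := fun h => (((Finset.Ioc 0 (0 + (2 * Y + 1 + T))).filter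
    (fun n => P' n ∧ P' (n + h))).card : ℝ) with hF
  set E : Finset ℕ := (Icc 1 T).filter (fun h => ¬ h ∈ E0) with hEdef
  have hsumF : ∑ h ∈ Finset.Icc 1 T, F h = ∑ h ∈ (Icc 1 T).filter (fun h => h ∈ E0), F h +
      ∑ h ∈ E, F h := (Finset.sum_filter_add_sum_filter_not _ _ _).symm
  have hs1 : ∑ h ∈ (Icc 1 T).filter (fun h => h ∈ E0), F h ≤ (k : ℝ) ^ 2 * a := by
    have a1 : ∀ h ∈ (Icc 1 T).filter (fun h => h ∈ E0), F h ≤ a := by
      intro h _
      rw [ha]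
      simp only [hF, co]
      have : (Finset.Ioc 0 (0 + (2 * Y + 1 + T))).filter (fun n => P' n ∧ P' (n + h)) ⊆
          (Finset.Ioc 0 (0 + (2 * Y + 1 + T))).filter P' := by
        intro n hn
        rw [mem_filter] at hn ⊢
        exact ⟨hn.1, hn.2.1⟩
      exact_mod_cast card_le_card this
    have a2 := Finset.sum_le_card_nsmul _ _ _ a1
    rw [nsmul_eq_mul] at a2
    refine a2.trans ?_
    have a3 : (((Icc 1 T).filter (fun h => h ∈ E0)).card : ℝ) ≤ (k : ℝ) ^ 2 := by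
      have : ((Icc 1 T).filter (fun h => h ∈ E0)).card ≤ E0.card :=
        card_le_card fun h hh => (mem_filter.1 hh).2
      exact_mod_cast this.trans hE0
    exact mul_le_mul_of_nonneg_right a3 ha0
  have hs2 : ∑ h ∈ E, F h ≤ Cp * T * (4 * Y : ℕ) * w ^ 2 + T * (2 * s) := by
    rw [hw, ← hsqrt]
    refine le_trans ?_ (hpairs T hTx0 E (filter_subset _ _) ?_)
    · apply Finset.sum_le_sum
      intro h hhE
      have hhT : h ≤ T := by
        rw [hEdef, mem_filter, mem_Icc] at hhE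
        exact hhE.1.2
      simp only [hF]
      have : (Finset.Ioc 0 (0 + (2 * Y + 1 + T))).filter (fun n => P' n ∧ P' (n + h)) ⊆
          (Icc 1 (4 * Y)).filter (fun m => ∀ p ∈ pz y, ¬ Qh (Qs f N) h p m) := by
        intro n hn
        rw [mem_filter, mem_Ioc] at hn
        rw [mem_filter, mem_Icc]
        refine ⟨⟨by omega, by omega⟩, ?_⟩
        intro p hp hq
        rcases hq with hq | hq
        · exact hP'Q n hn.2.1 (by omega) p hp hq
        · exact hP'Q (n + h) hn.2.2 (by omega) p hp hq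
      exact_mod_cast card_le_card this
    · intro h hh
      rw [hEdef, mem_filter] at hh
      exact hE1 y h hh.1 hh.2
  -- the end
  rw [hC2]
  refine alg T Y W w s a _ _ _ Cp C3 C k hT0 hYpos.le hW0 hW1 hw0 hs0.le ha0 hCp.le hC3.le
    (by linarith) hCT hwW hsW ha2 ?_ hs1 hsumF
  rw [← (by push_cast; ring : Cp * T * (4 * Y : ℕ) * w ^ 2 + T * (2 * s) =
    Cp * T * (4 * Y) * w ^ 2 + T * (2 * s))]
  exact hs2

end Pool.Agent.N610.JW
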