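import Pool.Agent.N610.JW.Stm

set_option autoImplicit false

/-!
# Project JW (helper610): collisions of shifted polynomials, uniformly in the system
-/

namespace Pool.Agent.N610.JW

open Polynomial Finset Filter
open Pool.Agent.H373R2.T7 (nuB PerB pz mem_pz)
open Pool.Agent.W123.RU (CoG card_le_log)
open Pool.Agent.W123.RU.Poly (Q Sys)
open Pool.Agent.H474R2.PG (rho ncol_not_periodic)
open Pool.Agent.W123.RU

namespace COL

/-- the number of the zeros modulo a prime number -/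
lemma rho_le_deg (f : ℤ[X]) (p : ℕ) (hp : p.Prime) (m : ℤ) (hm : ¬ (p : ℤ) ∣ f.eval m) :
    rho f p ≤ f.natDegree := by
  classical
  have : Fact p.Prime := ⟨hp⟩
  set g : (ZMod p)[X] := f.map (Int.castRingHom (ZMod p)) with hg
  have hev : ∀ a : ℤ, g.eval (a : ZMod p) = ((f.eval a : ℤ) : ZMod p) := by
    intro a
    rw [hg]
    exact Polynomial.eval_intCast_map (Int.castRingHom (ZMod p)) f a
  have hg0 : g ≠ 0 := by
    intro h
    apply hm
    rw [← ZMod.intCast_zmod_eq_zero_iff_dvd, ← hev, h, eval_zero]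
  have h1 : rho f p ≤ g.roots.toFinset.card := by
    unfold rho
    apply Finset.card_le_card_of_injOn (fun a : ℕ => (a : ZMod p))
    · intro a ha
      rw [Finset.mem_coe, mem_filter] at ha
      rw [Finset.mem_coe, Multiset.mem_toFinset, mem_roots hg0, IsRoot]
      have h2 := hev (a : ℤ)
      rw [(ZMod.intCast_zmod_eq_zero_iff_dvd _ p).2 ha.2] at h2
      rw [Int.cast_natCast] at h2
      exact h2
    · intro a ha b hb hab
      rw [Finset.mem_coe, mem_filter, mem_range] at ha hb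
      have h2 : (a : ZMod p) = (b : ZMod p) := hab
      rw [ZMod.natCast_eq_natCast_iff'] at h2
      rwa [Nat.mod_eq_of_lt ha.1, Nat.mod_eq_of_lt hb.1] at h2
  calc rho f p ≤ g.roots.toFinset.card := h1
    _ ≤ Multiset.card g.roots := Multiset.toFinset_card_le _
    _ ≤ g.natDegree := card_roots' g
    _ ≤ f.natDegree := natDegree_map_le

lemma comp_sum (g : ℤ[X]) (d : ℕ) (hd : g.natDegree ≤ d) (t : ℤ) :
    g.comp (X + C t) = ∑ m ∈ range (d + 1), C (g.coeff m) * (X + C t) ^ m := by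
  rw [comp]
  exact eval₂_eq_sum_range' C (Nat.lt_succ_of_le hd) (X + C t)

lemma coeff_term (m n d : ℕ) (hm : m ≤ d) (t Y : ℤ) (ht0 : 0 ≤ t) (ht : t ≤ Y)
    (hY : 1 ≤ Y) (A a : ℤ) (hA0 : 0 ≤ A) (hA : |a| ≤ A) :
    |a * (t ^ (m - n) * ((m.choose n : ℕ) : ℤ))| ≤ 2 ^ d * Y ^ d * A := by
  rw [abs_mul, abs_mul]
  have h1 : |t ^ (m - n)| ≤ Y ^ d := by
    rw [abs_of_nonneg (pow_nonneg ht0 _)]
    exact (pow_le_pow_left₀ ht0 ht _).trans (pow_le_pow_right₀ hY (by omega))
  have h2 : |((m.choose n : ℕ) : ℤ)| ≤ 2 ^ d := by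
    rw [abs_of_nonneg (Int.natCast_nonneg _)]
    have h3 : m.choose n ≤ 2 ^ m := Nat.choose_le_two_pow m n
    have h4 : 2 ^ m ≤ 2 ^ d := Nat.pow_le_pow_right (by norm_num) hm
    exact_mod_cast h3.trans h4
  have hY0 : (0 : ℤ) ≤ Y ^ d := pow_nonneg (by linarith) _
  have h5 : |t ^ (m - n)| * |((m.choose n : ℕ) : ℤ)| ≤ Y ^ d * 2 ^ d :=
    mul_le_mul h1 h2 (abs_nonneg _) hY0
  have h6 : |a| * (|t ^ (m - n)| * |((m.choose n : ℕ) : ℤ)|) ≤ A * (Y ^ d * 2 ^ d) :=
    mul_le_mul hA h5 (mul_nonneg (abs_nonneg _) (abs_nonneg _)) hA0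
  linarith

/-- the coefficients of a shifted polynomial -/
lemma coeff_shift (g : ℤ[X]) (d : ℕ) (hd : g.natDegree ≤ d) (t Y : ℤ) (ht0 : 0 ≤ t) (ht : t ≤ Y)
    (hY : 1 ≤ Y) (A : ℤ) (hA : ∀ n, |g.coeff n| ≤ A) (n : ℕ) :
    |(g.comp (X + C t)).coeff n| ≤ ((d : ℤ) + 1) * (2 ^ d * Y ^ d * A) := by
  have hA0 : 0 ≤ A := (abs_nonneg _).trans (hA 0)
  rw [comp_sum g d hd t, finsetSum_coeff]
  refine (abs_sum_le_sum_abs _ _).trans ?_
  have h1 : ∀ m ∈ range (d + 1), |(C (g.coeff m) * (X + C t) ^ m).coeff n| ≤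
      2 ^ d * Y ^ d * A := by
    intro m hm
    rw [mem_range] at hm
    rw [coeff_C_mul, coeff_X_add_C_pow]
    exact coeff_term m n d (by omega) t Y ht0 ht hY A (g.coeff m) hA0 (hA m)
  refine (Finset.sum_le_sum h1).trans (le_of_eq ?_)
  rw [sum_const, card_range, nsmul_eq_mul, Nat.cast_add, Nat.cast_one]

/-- the resultant of two polynomials -/
lemma res_int (f G : ℤ[X]) (hfd : 0 < f.natDegree)
    (hcop : IsCoprime (f.map (Int.castRingHom ℚ)) (G.map (Int.castRingHom ℚ)))
    (H : ℤ) (hH : 1 ≤ H) (hfH : ∀ n, |f.coeff n| ≤ H) (hGH : ∀ n, |G.coeff n| ≤ H) (d : ℕ)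
    (hfd' : f.natDegree ≤ d) (hGd' : G.natDegree ≤ d) :
    ∃ r : ℤ, r ≠ 0 ∧ |r| ≤ (2 * d).factorial * H ^ (2 * d) ∧
      ∀ x p : ℤ, p ∣ f.eval x → p ∣ G.eval x → p ∣ r := by
  classical
  refine ⟨f.resultant G f.natDegree G.natDegree, ?_, ?_, ?_⟩
  · intro h0
    have h2 := resultant_ne_zero (f.map (Int.castRingHom ℚ)) (G.map (Int.castRingHom ℚ)) hcop
    have hinj : Function.Injective (Int.castRingHom ℚ) := RingHom.injective_int _
    rw [natDegree_map_eq_of_injective hinj, natDegree_map_eq_of_injective hinj,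
      resultant_map_map f G f.natDegree G.natDegree (Int.castRingHom ℚ), h0, map_zero] at h2
    exact h2 rfl
  · have hent : ∀ i j, (AbsoluteValue.abs : AbsoluteValue ℤ ℤ)
        (sylvester f G f.natDegree G.natDegree i j) ≤ H := by
      intro i j
      change |sylvester f G f.natDegree G.natDegree i j| ≤ H
      rw [sylvester, Matrix.of_apply]
      induction j using Fin.addCases with
      | left j =>
        rw [Fin.addCases_left]
        split_ifs
        · exact hGH _
        · rw [abs_zero]; linarith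
      | right j =>
        rw [Fin.addCases_right]
        split_ifs
        · exact hfH _
        · rw [abs_zero]; linarith
    have h1 := Matrix.det_le hent
    rw [Fintype.card_fin, nsmul_eq_mul] at h1
    have h2 : |f.resultant G f.natDegree G.natDegree| ≤
        ((f.natDegree + G.natDegree).factorial : ℤ) * H ^ (f.natDegree + G.natDegree) := h1
    refine h2.trans ?_
    have h3 : (f.natDegree + G.natDegree).factorial ≤ (2 * d).factorial :=
      Nat.factorial_le (by omega)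
    have h4 : H ^ (f.natDegree + G.natDegree) ≤ H ^ (2 * d) := pow_le_pow_right₀ hH (by omega)
    apply mul_le_mul _ h4 (by positivity) (by positivity)
    exact_mod_cast h3
  · intro x p hx hG
    obtain ⟨P, Q, -, -, hPQ⟩ := exists_mul_add_mul_eq_C_resultant f G le_rfl le_rfl
      (Or.inl hfd.ne')
    have h := congrArg (fun q : ℤ[X] => q.eval x) hPQ
    simp only [eval_add, eval_mul, eval_C] at h
    rw [← h]
    exact dvd_add (hx.mul_right _) (hG.mul_right _)

/-- two different shifts of a polynomial are different -/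
lemma shift_inj (f g : ℤ[X]) (hg : 0 < g.natDegree) (s t : ℤ) (hs : f = g.comp (X + C s))
    (ht : f = g.comp (X + C t)) : s = t := by
  by_contra hne
  have h1 : g.comp (X + C s) = g.comp (X + C t) := by rw [← hs, ← ht]
  have h2 : g.comp (X + C (s - t)) = g := by
    have h3 := congrArg (fun q : ℤ[X] => q.comp (X - C t)) h1
    simp only [comp_assoc, add_comp, X_comp, C_comp] at h3
    have e1 : (X - C t + C s : ℤ[X]) = X + C (s - t) := by
      rw [C_sub]; ring
    have e2 : (X - C t + C t : ℤ[X]) = X := by ring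
    rw [e1, e2, comp_X] at h3
    exact h3
  apply ncol_not_periodic (g.map (Int.castRingHom ℚ)) _ ((s - t : ℤ) : ℚ) _
  · have := congrArg (Polynomial.map (Int.castRingHom ℚ)) h2
    rw [Polynomial.map_comp] at this
    simpa using this
  · rw [natDegree_map_eq_of_injective (RingHom.injective_int _)]
    exact hg
  · have : (s - t : ℤ) ≠ 0 := sub_ne_zero.2 hne
    exact_mod_cast this

end COL

open Classical COL in
/-- collisions, uniformly in the system -/
theorem t_COL : S_COL := by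
  intro k d C0 hk hd hC
  set M0 : ℕ := 1 + (C0 + d + 1) * (2 * d) with hM0
  refine ⟨k ^ 2 * (2 * M0 * C0), ?_⟩
  filter_upwards [eventually_ge_atTop (max ((2 * d).factorial) ((d + 1) * 2 ^ d))] with Y hY
  intro f hf
  obtain ⟨hS, hdeg, hco⟩ := hf
  have hY1 : (2 * d).factorial ≤ Y := (le_max_left _ _).trans hY
  have hY2 : (d + 1) * 2 ^ d ≤ Y := (le_max_right _ _).trans hY
  have hYpos : 1 ≤ Y := (Nat.factorial_pos _).trans_le hY1
  refine ⟨⟨fun p n => Poly.per f p n, ?_⟩, ?_⟩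
  · intro p hp
    obtain ⟨m, hm⟩ := hS.adm p hp
    have h1 := Poly.nuB_le_sum f p
    have h2 : ∑ i, rho (f i) p ≤ ∑ _i : Fin k, d :=
      Finset.sum_le_sum fun i _ => (rho_le_deg (f i) p hp m (hm i)).trans (hdeg i)
    rw [sum_const, card_univ, Fintype.card_fin, smul_eq_mul] at h2
    exact h1.trans h2
  intro T hT1 hT2
  have hco' : ∀ i n, |(f i).coeff n| ≤ (Y : ℤ) ^ C0 := by
    intro i n
    have := hco i n
    exact_mod_cast this
  let E : Finset ℕ := (Icc 1 T).filter (fun h : ℕ => ∃ q : Fin k × Fin k,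
    f q.1 = (f q.2).comp (X + C (h : ℤ)))
  refine ⟨E, ?_, ?_⟩
  · have h1 : E ⊆ (Finset.univ : Finset (Fin k × Fin k)).biUnion (fun q =>
        (Icc 1 T).filter (fun h : ℕ => f q.1 = (f q.2).comp (X + C (h : ℤ)))) := by
      intro h hh
      rw [mem_filter] at hh
      obtain ⟨hh1, q, hq⟩ := hh
      rw [mem_biUnion]
      exact ⟨q, mem_univ _, mem_filter.2 ⟨hh1, hq⟩⟩
    have h2 : ∀ q : Fin k × Fin k,
        ((Icc 1 T).filter (fun h : ℕ => f q.1 = (f q.2).comp (X + C (h : ℤ)))).card ≤ 1 := by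
      intro q
      rw [Finset.card_le_one]
      intro a ha b hb
      rw [mem_filter] at ha hb
      have := shift_inj (f q.1) (f q.2) (hS.deg q.2) a b ha.2 hb.2
      exact_mod_cast this
    calc E.card ≤ _ := (card_le_card h1).trans Finset.card_biUnion_le
      _ ≤ ∑ _q : Fin k × Fin k, 1 := Finset.sum_le_sum fun q _ => h2 q
      _ = k ^ 2 := by
          rw [sum_const, card_univ, Fintype.card_prod, Fintype.card_fin, smul_eq_mul, mul_one,
            pow_two]
  · intro y h hh hE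
    have hne : ∀ i j, f i ≠ (f j).comp (X + C (h : ℤ)) := by
      intro i j hij
      exact hE (mem_filter.2 ⟨hh, (i, j), hij⟩)
    rw [mem_Icc] at hh
    -- the coefficient bound
    set H : ℤ := (d + 1) * (2 ^ d * (Y : ℤ) ^ d * (Y : ℤ) ^ C0) with hHdef
    have hYz : (1 : ℤ) ≤ Y := by exact_mod_cast hYpos
    have hH1 : (Y : ℤ) ^ C0 ≤ H := by
      have a1 : (1 : ℤ) ≤ 2 ^ d := one_le_pow₀ (by norm_num)
      have a2 : (1 : ℤ) ≤ (Y : ℤ) ^ d := one_le_pow₀ hYz
      have a3 : (0 : ℤ) ≤ (Y : ℤ) ^ C0 := by positivity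
      have a4 : (1 : ℤ) ≤ 2 ^ d * (Y : ℤ) ^ d := one_le_mul_of_one_le_of_one_le a1 a2
      have a5 : (1 : ℤ) ≤ (d : ℤ) + 1 := by
        have : (0 : ℤ) ≤ d := Int.natCast_nonneg d
        linarith
      calc (Y : ℤ) ^ C0 = 1 * (1 * (Y : ℤ) ^ C0) := by ring
        _ ≤ (d + 1) * (2 ^ d * (Y : ℤ) ^ d * (Y : ℤ) ^ C0) := by
            apply mul_le_mul a5 _ (by positivity) (by positivity)
            exact mul_le_mul_of_nonneg_right a4 a3
    have hH : 1 ≤ H := le_trans (one_le_pow₀ hYz) hH1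
    have hH2 : H ≤ (Y : ℤ) ^ (C0 + d + 1) := by
      have a1 : ((d : ℤ) + 1) * 2 ^ d ≤ Y := by exact_mod_cast hY2
      calc H = (((d : ℤ) + 1) * 2 ^ d) * ((Y : ℤ) ^ d * (Y : ℤ) ^ C0) := by rw [hHdef]; ring
        _ ≤ Y * ((Y : ℤ) ^ d * (Y : ℤ) ^ C0) := mul_le_mul_of_nonneg_right a1 (by positivity)
        _ = (Y : ℤ) ^ (C0 + d + 1) := by ring
    have hres : ∀ i j, ∃ r : ℤ, r ≠ 0 ∧ |r| ≤ (2 * d).factorial * H ^ (2 * d) ∧
        ∀ x p : ℤ, p ∣ (f i).eval x → p ∣ ((f j).comp (X + C (h : ℤ))).eval x → p ∣ r := by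
      intro i j
      apply res_int (f i) ((f j).comp (X + C (h : ℤ))) (hS.deg i) _ H hH _ _ d (hdeg i)
      · rw [Pool.Agent.W149.CS.comp_natDegree]
        exact hdeg j
      · exact Pool.Agent.W149.CS.coprime_of_ne (f i) ((f j).comp (X + C (h : ℤ))) (hS.irr i)
          (Pool.Agent.W149.CS.comp_irred (f j) (hS.irr j) h) (hS.deg i)
          (by rw [Pool.Agent.W149.CS.comp_natDegree]; exact hS.deg j) (hS.lead i)
          (by rw [Pool.Agent.W149.CS.comp_lc]; exact hS.lead j) (hne i j)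
      · intro n
        exact (hco' i n).trans hH1
      · intro n
        exact coeff_shift (f j) d (hdeg j) h Y (Int.natCast_nonneg h)
          (by exact_mod_cast hh.2.trans hT2) hYz _ (hco' j) n
    choose r hr0 hrb hrd using hres
    have hT1' : (1 : ℝ) ≤ T := by exact_mod_cast (by omega : 1 ≤ T)
    have hlogY : 0 ≤ Real.log Y := Real.log_natCast_nonneg Y
    have hcard : ∀ q : Fin k × Fin k,
        ((pz y).filter (fun p : ℕ => p ∣ (r q.1 q.2).natAbs)).card ≤ 2 * M0 * C0 * T := by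
      intro q
      have h1 := card_le_log ((pz y).filter (fun p : ℕ => p ∣ (r q.1 q.2).natAbs))
        (r q.1 q.2).natAbs (Int.natAbs_ne_zero.2 (hr0 _ _)) (fun p hp => by
          rw [mem_filter] at hp
          exact ⟨(mem_pz.1 hp.1).2, hp.2⟩)
      have h2 : ((r q.1 q.2).natAbs : ℤ) ≤ (Y : ℤ) ^ M0 := by
        rw [Int.natCast_natAbs]
        refine (hrb q.1 q.2).trans ?_
        have a1 : (((2 * d).factorial : ℕ) : ℤ) ≤ Y := by exact_mod_cast hY1
        have a2 : H ^ (2 * d) ≤ ((Y : ℤ) ^ (C0 + d + 1)) ^ (2 * d) :=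
          pow_le_pow_left₀ (by linarith) hH2 _
        calc (((2 * d).factorial : ℕ) : ℤ) * H ^ (2 * d)
            ≤ Y * ((Y : ℤ) ^ (C0 + d + 1)) ^ (2 * d) :=
              mul_le_mul a1 a2 (by positivity) (by positivity)
          _ = (Y : ℤ) ^ M0 := by
            rw [hM0, ← pow_mul, pow_add (Y : ℤ) 1, pow_one]
      have h3 : (((r q.1 q.2).natAbs : ℕ) : ℝ) ≤ (Y : ℝ) ^ M0 := by exact_mod_cast h2
      have h4 : (0 : ℝ) < (((r q.1 q.2).natAbs : ℕ) : ℝ) := by
        exact_mod_cast Nat.pos_of_ne_zero (Int.natAbs_ne_zero.2 (hr0 q.1 q.2))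
      have h5 := Real.log_le_log h4 h3
      rw [Real.log_pow] at h5
      have hl2 : (1 : ℝ) / 2 ≤ Real.log 2 := by
        have := Real.log_two_gt_d9
        linarith
      have hc0 : (0 : ℝ) ≤ (((pz y).filter (fun p : ℕ => p ∣ (r q.1 q.2).natAbs)).card : ℝ) :=
        Nat.cast_nonneg _
      have h6 := mul_le_mul_of_nonneg_left hl2 hc0
      have h7 : (M0 : ℝ) * Real.log Y ≤ M0 * (C0 * T) :=
        mul_le_mul_of_nonneg_left hT1 (Nat.cast_nonneg _)
      have h8 : (((pz y).filter (fun p : ℕ => p ∣ (r q.1 q.2).natAbs)).card : ℝ) ≤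
          ((2 * M0 * C0 * T : ℕ) : ℝ) := by
        push_cast
        linarith
      exact_mod_cast h8
    have hsub : (pz y).filter (fun p : ℕ => T < p ∧ CoG (Q f) p h) ⊆
        (Finset.univ : Finset (Fin k × Fin k)).biUnion
          (fun q => (pz y).filter (fun p : ℕ => p ∣ (r q.1 q.2).natAbs)) := by
      intro p hp
      rw [mem_filter] at hp
      obtain ⟨hp1, hp2, m, ⟨i, hi⟩, ⟨j, hj⟩⟩ := hp
      rw [mem_biUnion]
      refine ⟨(i, j), mem_univ _, mem_filter.2 ⟨hp1, ?_⟩⟩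
      push_cast at hj
      have h1 := hrd i j m p hi (by
        rw [eval_comp, eval_add, eval_X, eval_C]
        exact hj)
      exact Int.natCast_dvd.1 h1
    calc ((pz y).filter (fun p : ℕ => T < p ∧ CoG (Q f) p h)).card
        ≤ ∑ q : Fin k × Fin k, ((pz y).filter (fun p : ℕ => p ∣ (r q.1 q.2).natAbs)).card :=
          (card_le_card hsub).trans Finset.card_biUnion_le
      _ ≤ ∑ _q : Fin k × Fin k, 2 * M0 * C0 * T := Finset.sum_le_sum fun q _ => hcard q
      _ = k ^ 2 * (2 * M0 * C0) * T := by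
          rw [sum_const, card_univ, Fintype.card_prod, Fintype.card_fin, smul_eq_mul]
          ring

end Pool.Agent.N610.JW
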