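import Pool.Agent.N610.JW.Stm

set_option autoImplicit false

/-!
# Stable blocks of scales (project JW, helper610)
-/

namespace Pool.Agent.N610.JW

open Polynomial Finset Filter
open Pool.Agent.N610.JV (count)

/-- the density changes by at least `ε` between two lengths in `[a, b]` -/
def Osc (A : Set ℕ) (v : ℝ) (n a b : ℕ) (ε : ℝ) : Prop :=
  ∃ s t : ℕ, a ≤ s ∧ s < t ∧ t ≤ b ∧ ε ≤ |dens A v n t - dens A v n s|

open Classical in
/-- all but a bounded number of the blocks of scales are stable -/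
def S_STB : Prop := ∀ k d C r : ℕ, 1 ≤ k → 1 ≤ d → 1 ≤ C → 1 ≤ r → ∃ K : ℝ, 0 < K ∧
  ∀ᶠ Y : ℕ in atTop, ∀ f : Fin k → ℤ[X], SysH k d ((Y : ℝ) ^ C) f → ∀ (N : ℕ) (A : Set ℕ),
    Rough f A ((Y : ℝ) ^ (1 / (r : ℝ))) N (N + 3 * Y) →
      ∀ (J : ℕ) (T : ℕ → ℕ), Monotone T → max (Real.log Y) (1 / V f Y) / C ≤ T 0 → T J ≤ Y →
        ∀ ε : ℝ, 0 < ε →
          (((range J).filter (fun j => ε * Y < (((Ioc N (N + Y)).filter
            (fun n => Osc A (V f Y) n (T j) (T (j + 1)) ε)).card : ℝ))).card : ℝ) ≤ K / ε ^ 3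

/-- enumeration of a set of blocks -/
theorem ch_of (A : Set ℕ) (v lo : ℝ) (Y n J : ℕ) (T : ℕ → ℕ) (hT : Monotone T) (hlo : lo ≤ T 0)
    (hJ : T J ≤ Y) (ε : ℝ) (B : Finset ℕ) (hB : ∀ j ∈ B, j < J ∧ Osc A v n (T j) (T (j + 1)) ε) :
    Ch A v lo Y n ε B.card := by
  classical
  -- the increasing enumeration of `B`
  let e := B.orderEmbOfFin rfl
  have he : ∀ i : Fin B.card, (e i : ℕ) ∈ B := fun i => B.orderEmbOfFin_mem rfl i
  have hs : ∀ j : ℕ, j ∈ B → ∃ p : ℕ × ℕ, T j ≤ p.1 ∧ p.1 < p.2 ∧ p.2 ≤ T (j + 1) ∧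
      ε ≤ |dens A v n p.2 - dens A v n p.1| := by
    intro j hj
    obtain ⟨s, t, h1, h2, h3, h4⟩ := (hB j hj).2
    exact ⟨(s, t), h1, h2, h3, h4⟩
  choose! P hP using hs
  refine ⟨fun i => if h : i < B.card then (P (e ⟨i, h⟩)).1 else 0,
    fun i => if h : i < B.card then (P (e ⟨i, h⟩)).2 else 0, ?_, ?_⟩
  · intro i hi
    have hm := he ⟨i, hi⟩
    obtain ⟨h1, h2, h3, h4⟩ := hP _ hm
    simp only [dif_pos hi]
    refine ⟨?_, h2, ?_, h4⟩
    · refine hlo.trans ?_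
      have : T 0 ≤ (P (e ⟨i, hi⟩)).1 := (hT (Nat.zero_le _)).trans h1
      exact_mod_cast this
    · refine h3.trans ((hT ?_).trans hJ)
      exact (hB _ hm).1
  · intro i hi
    have hi' : i < B.card := by omega
    have hm := he ⟨i, hi'⟩
    have hm2 := he ⟨i + 1, hi⟩
    obtain ⟨-, -, h3, -⟩ := hP _ hm
    obtain ⟨h1, -, -, -⟩ := hP _ hm2
    simp only [dif_pos hi, dif_pos hi']
    refine h3.trans ((hT ?_).trans h1)
    have hlt : e ⟨i, hi'⟩ < e ⟨i + 1, hi⟩ := e.strictMono (by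
      rw [Fin.lt_def]
      exact Nat.lt_succ_self i)
    omega

theorem t_STB (h : S_UNI) : S_STB := by
  classical
  intro k d C r hk hd hC hr
  obtain ⟨K, hK, h1⟩ := h k d C r hk hd hC hr
  refine ⟨K, hK, ?_⟩
  filter_upwards [h1, eventually_ge_atTop 1] with Y hY hY1 f hf N A hA J T hT hlo hJ ε hε
  have hYr : (0 : ℝ) < Y := by exact_mod_cast hY1
  set Bad := (range J).filter (fun j => ε * Y < (((Ioc N (N + Y)).filter
    (fun n => Osc A (V f Y) n (T j) (T (j + 1)) ε)).card : ℝ)) with hBad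
  have h2 := hY f hf N A hA ε hε
    (fun n => (Bad.filter (fun j => Osc A (V f Y) n (T j) (T (j + 1)) ε)).card) (by
      intro n _ _
      refine ch_of A (V f Y) _ Y n J T hT hlo hJ ε _ ?_
      intro j hj
      rw [mem_filter, hBad, mem_filter, mem_range] at hj
      exact ⟨hj.1.1, hj.2⟩)
  have h3 : ∑ n ∈ Ioc N (N + Y),
      ((Bad.filter (fun j => Osc A (V f Y) n (T j) (T (j + 1)) ε)).card : ℝ) =
      ∑ j ∈ Bad, (((Ioc N (N + Y)).filter
        (fun n => Osc A (V f Y) n (T j) (T (j + 1)) ε)).card : ℝ) := by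
    simp only [card_filter, Nat.cast_sum]
    exact sum_comm
  rw [h3] at h2
  have h4 : (Bad.card : ℝ) * (ε * Y) ≤ ∑ j ∈ Bad, (((Ioc N (N + Y)).filter
        (fun n => Osc A (V f Y) n (T j) (T (j + 1)) ε)).card : ℝ) := by
    rw [← nsmul_eq_mul]
    apply card_nsmul_le_sum
    intro j hj
    rw [hBad, mem_filter] at hj
    exact hj.2.le
  have h5 : (Bad.card : ℝ) * (ε * Y) ≤ K * Y / ε ^ 2 := h4.trans h2
  rw [le_div_iff₀ (by positivity)] at h5 ⊢
  have h6 : (Bad.card : ℝ) * ε ^ 3 * Y ≤ K * Y := by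
    calc (Bad.card : ℝ) * ε ^ 3 * Y = (Bad.card : ℝ) * (ε * Y) * ε ^ 2 := by ring
      _ ≤ K * Y := h5
  exact le_of_mul_le_mul_right h6 hYr

end Pool.Agent.N610.JW
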