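import Pool.Agent.N610.JV.Stm
import Pool.Agent.W123.RU.Poly

set_option autoImplicit false

/-!
# Jump inequality for prime values of systems of polynomials: statements (project JW, helper610)
-/

namespace Pool.Agent.N610.JW

open Polynomial Finset Filter
open Pool.Agent.H373R2.T7 (nuB PerB pz)
open Pool.Agent.W123.RU (CoG)
open Pool.Agent.W123.RU.Poly (Q Sys)
open Pool.Agent.N610.JV (count)

/-- admissible systems of irreducible polynomials of degree `≤ d` with coefficients of absolute value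
`≤ T` -/
def SysH (k d : ℕ) (T : ℝ) (f : Fin k → ℤ[X]) : Prop :=
  Sys f ∧ (∀ i, (f i).natDegree ≤ d) ∧ ∀ i j, |(((f i).coeff j : ℤ) : ℝ)| ≤ T

open Classical in
/-- the number of the residue classes mod `p` in which some `f i` has a zero -/
noncomputable def om {k : ℕ} (f : Fin k → ℤ[X]) (p : ℕ) : ℕ :=
  ((range p).filter (fun a : ℕ => ∃ i, (p : ℤ) ∣ (f i).eval (a : ℤ))).card

/-- the sieve product up to `Y` -/
noncomputable def V {k : ℕ} (f : Fin k → ℤ[X]) (Y : ℕ) : ℝ :=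
  ∏ p ∈ (Icc 1 Y).filter Nat.Prime, (1 - (om f p : ℝ) / p)

/-- for the elements `m` of `A` in `(a, b]` no value `f i (m)` has a prime factor `≤ z` -/
def Rough {k : ℕ} (f : Fin k → ℤ[X]) (A : Set ℕ) (z : ℝ) (a b : ℕ) : Prop :=
  ∀ m ∈ A, a < m → m ≤ b → ∀ i, ∀ p : ℕ, p.Prime → (p : ℤ) ∣ (f i).eval (m : ℤ) → z < p

/-- the density of `A` in `(n, n + H]`, relative to `v` -/
noncomputable def dens (A : Set ℕ) (v : ℝ) (n H : ℕ) : ℝ := (count A n (n + H) : ℝ) / (v * H)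

/-- there are `k` non-overlapping pairs of lengths between `lo` and `Y` such that the densities (of
`A`, from `n`, relative to `v`) at the two lengths of every pair differ by at least `lam` -/
def Ch (A : Set ℕ) (v lo : ℝ) (Y n : ℕ) (lam : ℝ) (k : ℕ) : Prop :=
  ∃ s t : ℕ → ℕ, (∀ i < k, lo ≤ s i ∧ s i < t i ∧ t i ≤ Y ∧
      lam ≤ |dens A v n (t i) - dens A v n (s i)|) ∧
    ∀ i, i + 1 < k → t i ≤ s (i + 1)

open Classical in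
/-- collisions, uniformly in the system -/
def S_COL : Prop := ∀ k d C : ℕ, 1 ≤ k → 1 ≤ d → 1 ≤ C → ∃ D' : ℕ, ∀ᶠ Y : ℕ in atTop,
  ∀ f : Fin k → ℤ[X], SysH k d ((Y : ℝ) ^ C) f → PerB (Q f) (k * d) ∧
    ∀ T : ℕ, Real.log Y ≤ C * T → T ≤ Y → ∃ E : Finset ℕ, E.card ≤ k ^ 2 ∧
      ∀ y : ℕ, ∀ h ∈ Icc 1 T, h ∉ E →
        ((pz y).filter (fun p : ℕ => T < p ∧ CoG (Q f) p h)).card ≤ D' * T

/-- second moment in intervals of length `T`, uniformly in the system -/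
def S_MOM : Prop := ∀ k d C r : ℕ, 1 ≤ k → 1 ≤ d → 1 ≤ C → 1 ≤ r → ∃ C2 : ℝ, 0 < C2 ∧
  ∀ᶠ Y : ℕ in atTop, ∀ f : Fin k → ℤ[X], SysH k d ((Y : ℝ) ^ C) f → ∀ (N : ℕ) (A : Set ℕ),
    Rough f A ((Y : ℝ) ^ (1 / (r : ℝ))) N (N + 3 * Y) → ∀ T : ℕ, T ≤ Y → Real.log Y ≤ C * T →
      1 ≤ C * T * V f Y →
        ∑ n ∈ Ico N (N + 2 * Y + 1), (count A n (n + T) : ℝ) ^ 2 ≤ C2 * (T * V f Y) ^ 2 * Y

/-- **jump inequality, uniformly in the system** -/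
def S_UNI : Prop := ∀ k d C r : ℕ, 1 ≤ k → 1 ≤ d → 1 ≤ C → 1 ≤ r → ∃ K : ℝ, 0 < K ∧
  ∀ᶠ Y : ℕ in atTop, ∀ f : Fin k → ℤ[X], SysH k d ((Y : ℝ) ^ C) f → ∀ (N : ℕ) (A : Set ℕ),
    Rough f A ((Y : ℝ) ^ (1 / (r : ℝ))) N (N + 3 * Y) →
      ∀ lam : ℝ, 0 < lam → ∀ M : ℕ → ℕ, (∀ n, N < n → n ≤ N + Y →
        Ch A (V f Y) (max (Real.log Y) (1 / V f Y) / C) Y n lam (M n)) →
          ∑ n ∈ Ioc N (N + Y), (M n : ℝ) ≤ K * Y / lam ^ 2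

/-- **jump inequality, every fixed system** -/
def S_COR : Prop := ∀ (k : ℕ) (f : Fin k → ℤ[X]), 1 ≤ k → (∀ i, Irreducible (f i)) →
  (∀ i, 0 < (f i).natDegree) → (∀ i j, i ≠ j → f i ≠ f j ∧ f i ≠ -f j) →
    ∀ θ : ℝ, 0 < θ → θ ≤ 1 → ∃ K : ℝ, 0 < K ∧ ∀ᶠ X : ℕ in atTop, ∀ Y : ℕ, (X : ℝ) ^ θ ≤ Y → Y ≤ X →
      ∀ A : Set ℕ, (∀ m ∈ A, ∀ i, ((f i).eval (m : ℤ)).natAbs.Prime) →
        ∀ lam : ℝ, 0 < lam → ∀ M : ℕ → ℕ, (∀ n, X < n → n ≤ X + Y →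
          Ch A (1 / Real.log X ^ k) (Real.log X ^ k) Y n lam (M n)) →
            ∑ n ∈ Ioc X (X + Y), (M n : ℝ) ≤ K * Y / lam ^ 2

end Pool.Agent.N610.JW
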