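import Pool.Agent.N610.JW.Stm
import Pool.Agent.N610.JV.UP
import Pool.Agent.W123.RP.Mert

set_option autoImplicit false

/-!
# From the second moment to the jump inequality (project JW, task UNI)

Worker: helper195.
-/

namespace Pool.Agent.N610.JW.UNI_

open Polynomial Finset Filter
open Pool.Agent.H373R2.T7 (nuB PerB pz Vz mem_pz)
open Pool.Agent.W123.RU.Poly (Q Sys adm)
open Pool.Agent.N610.JV
open Pool.Agent.N610.JV.UP_ (G G_mono avg_eq energy)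
open Pool.Agent.N610.JW

/-! ### the sieve product -/

lemma om_eq {k : ℕ} (f : Fin k → ℤ[X]) (p : ℕ) : om f p = nuB (Q f) p := by
  unfold om nuB Q
  congr

lemma fac {k : ℕ} (f : Fin k → ℤ[X]) (hf : Sys f) (p : ℕ) (hp : p.Prime) :
    1 / (p : ℝ) ≤ 1 - (om f p : ℝ) / p ∧ 1 - (om f p : ℝ) / p ≤ 1 := by
  have hp0 : (0 : ℝ) < p := by exact_mod_cast hp.pos
  have h1 := adm f hf p hp
  rw [← om_eq] at h1
  have h2 : (om f p : ℝ) + 1 ≤ p := by exact_mod_cast h1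
  constructor
  · rw [div_le_iff₀ hp0, sub_mul, div_mul_cancel₀ _ hp0.ne']
    linarith
  · have : 0 ≤ (om f p : ℝ) / p := by positivity
    linarith

lemma V_pos {k : ℕ} (f : Fin k → ℤ[X]) (hf : Sys f) (Y : ℕ) : 0 < V f Y := by
  unfold V
  apply Finset.prod_pos
  intro p hp
  rw [mem_filter] at hp
  have h1 := (fac f hf p hp.2).1
  have hp0 : (0 : ℝ) < p := by exact_mod_cast hp.2.pos
  have h2 : 0 < 1 / (p : ℝ) := by positivity
  linarith

lemma V_le_one {k : ℕ} (f : Fin k → ℤ[X]) (hf : Sys f) (Y : ℕ) : V f Y ≤ 1 := by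
  unfold V
  apply Finset.prod_le_one
  · intro p hp
    rw [mem_filter] at hp
    have h1 := (fac f hf p hp.2).1
    have h2 : 0 ≤ 1 / (p : ℝ) := by positivity
    linarith
  · intro p hp
    rw [mem_filter] at hp
    exact (fac f hf p hp.2).2

/-- `(1 - x) ^ (2 m) ≤ 1 - m x` if `2 m x ≤ 1` -/
lemma bern (m : ℕ) (x : ℝ) (hx0 : 0 ≤ x) (hx1 : x ≤ 1) (hmx : 2 * m * x ≤ 1) :
    (1 - x) ^ (2 * m) ≤ 1 - m * x := by
  have h1 : 1 + ((2 * m : ℕ) : ℝ) * x ≤ (1 + x) ^ (2 * m) :=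
    one_add_mul_le_pow (by linarith) _
  push_cast at h1
  have h2 : (1 - x) ^ (2 * m) * (1 + x) ^ (2 * m) ≤ 1 := by
    rw [← mul_pow]
    apply pow_le_one₀
    · nlinarith
    · nlinarith
  have hm0 : (0 : ℝ) ≤ m := Nat.cast_nonneg m
  have hmx0 : 0 ≤ m * x := by positivity
  have h3 : (1 - x) ^ (2 * m) * (1 + 2 * m * x) ≤ 1 := by
    refine le_trans ?_ h2
    have : 0 ≤ (1 - x) ^ (2 * m) := pow_nonneg (by linarith) _
    gcongr
  have h4 : 1 ≤ (1 - m * x) * (1 + 2 * m * x) := by nlinarith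
  have h5 : 0 < 1 + 2 * (m : ℝ) * x := by nlinarith
  exact le_of_mul_le_mul_right (h3.trans h4) h5

lemma V_low (m : ℕ) (hm : 1 ≤ m) : ∃ c : ℝ, 0 < c ∧ ∀ (k : ℕ) (f : Fin k → ℤ[X]), Sys f →
    PerB (Q f) m → ∀ Y : ℕ, 2 ≤ Y → c / Real.log Y ^ (2 * m) ≤ V f Y := by
  obtain ⟨c0, C0, hc0, _, hV⟩ := Pool.Agent.W123.RP.Vz_bounds
  refine ⟨(c0 / (2 * m)) ^ (2 * m), by positivity, ?_⟩
  intro k f hf hP Y hY
  have hm0 : (1 : ℝ) ≤ m := by exact_mod_cast hm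
  have hlog : 0 < Real.log Y := Real.log_pos (by exact_mod_cast (by omega : 1 < Y))
  obtain ⟨a, ha⟩ : ∃ a : ℝ, a = 1 / (2 * (m : ℝ)) := ⟨_, rfl⟩
  have ha0 : 0 < a := by rw [ha]; positivity
  have ha1 : a ≤ 1 := by
    rw [ha, div_le_one (by positivity)]
    linarith
  have h1 : ∀ p ∈ (Icc 1 Y).filter Nat.Prime,
      (if p ≤ 2 * m then a else 1) * (1 - 1 / (p : ℝ)) ^ (2 * m) ≤ 1 - (om f p : ℝ) / p := by
    intro p hp
    rw [mem_filter] at hp
    have hp0 : (0 : ℝ) < p := by exact_mod_cast hp.2.pos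
    have hp2 : (2 : ℝ) ≤ p := by exact_mod_cast hp.2.two_le
    have hip : 1 / (p : ℝ) ≤ 1 := by
      rw [div_le_one hp0]
      linarith
    have hip0 : 0 ≤ 1 / (p : ℝ) := by positivity
    split_ifs with hpm
    · refine le_trans ?_ (fac f hf p hp.2).1
      have e1 : (1 - 1 / (p : ℝ)) ^ (2 * m) ≤ 1 := pow_le_one₀ (by linarith) (by linarith)
      calc a * (1 - 1 / (p : ℝ)) ^ (2 * m) ≤ a * 1 := by gcongr
        _ = a := mul_one a
        _ ≤ 1 / (p : ℝ) := by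
          rw [ha]
          apply one_div_le_one_div_of_le hp0
          exact_mod_cast hpm
    · rw [one_mul]
      refine (bern m (1 / (p : ℝ)) hip0 hip ?_).trans ?_
      · rw [mul_one_div, div_le_one hp0]
        push Not at hpm
        exact_mod_cast hpm.le
      · have e1 := hP.few p hp.2
        rw [← om_eq] at e1
        have e2 : (om f p : ℝ) ≤ m := by exact_mod_cast e1
        rw [mul_one_div]
        gcongr
  have h2 : ∏ p ∈ (Icc 1 Y).filter Nat.Prime,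
      ((if p ≤ 2 * m then a else 1) * (1 - 1 / (p : ℝ)) ^ (2 * m)) ≤ V f Y := by
    unfold V
    apply Finset.prod_le_prod
    · intro p hp
      rw [mem_filter] at hp
      have hp0 : (0 : ℝ) < p := by exact_mod_cast hp.2.pos
      have hp2 : (2 : ℝ) ≤ p := by exact_mod_cast hp.2.two_le
      have hip : 1 / (p : ℝ) ≤ 1 := by
        rw [div_le_one hp0]
        linarith
      apply mul_nonneg
      · split_ifs
        · exact ha0.le
        · exact zero_le_one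
      · exact pow_nonneg (by linarith) _
    · exact h1
  refine le_trans ?_ h2
  rw [Finset.prod_mul_distrib, Finset.prod_pow]
  have h3 : a ^ (2 * m) ≤ ∏ p ∈ (Icc 1 Y).filter Nat.Prime, (if p ≤ 2 * m then a else 1) := by
    rw [Finset.prod_ite, Finset.prod_const, Finset.prod_const_one, mul_one]
    apply pow_le_pow_of_le_one ha0.le ha1
    calc (((Icc 1 Y).filter Nat.Prime).filter (fun p => p ≤ 2 * m)).card ≤ (Icc 1 (2 * m)).card := by
          apply card_le_card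
          intro p hp
          rw [mem_filter, mem_filter, mem_Icc] at hp
          rw [mem_Icc]
          exact ⟨hp.1.1.1, hp.2⟩
      _ = 2 * m := by rw [Nat.card_Icc]; omega
  have h4 := (hV Y hY).1
  have h5 : ∏ p ∈ (Icc 1 Y).filter Nat.Prime, (1 - 1 / (p : ℝ)) = Vz Y := rfl
  rw [h5]
  calc (c0 / (2 * m)) ^ (2 * m) / Real.log Y ^ (2 * m)
      = a ^ (2 * m) * (c0 / Real.log Y) ^ (2 * m) := by
        rw [← div_pow, ← mul_pow, ha]
        congr 1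
        field_simp
    _ ≤ _ := by
        have : 0 ≤ c0 / Real.log Y := by positivity
        gcongr

/-! ### the inequality for one interval -/

/-- changes are jumps -/
lemma jumps_of (A : Set ℕ) (N Y D r n : ℕ) (v L lam : ℝ) (k : ℕ) (hv : 0 < v)
    (hDL : (D : ℝ) ≤ L) (hYr : Y ≤ 2 ^ r) (h1 : N < n) (h2 : n ≤ N + Y)
    (h : Ch A v L Y n lam k) :
    Jumps (avg (G A N Y D) (n - N + D)) D (2 ^ r) (lam * v) k := by
  obtain ⟨s, t, hst, hord⟩ := h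
  refine ⟨s, t, ?_, hord⟩
  intro i hi
  obtain ⟨a1, a2, a3, a4⟩ := hst i hi
  refine ⟨?_, a2, a3.trans hYr, ?_⟩
  · exact_mod_cast hDL.trans a1
  · rw [avg_eq A N Y D n (t i) h1 h2 a3, avg_eq A N Y D n (s i) h1 h2 (by omega)]
    have e : ∀ H : ℕ, (count A n (n + H) : ℝ) / H = dens A v n H * v := by
      intro H
      unfold dens
      rw [← div_div, div_right_comm, div_mul_cancel₀ _ hv.ne']
    rw [e, e, ← sub_mul, abs_mul, abs_of_pos hv]
    exact mul_le_mul_of_nonneg_right a4 hv.le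

lemma one (CJ : ℝ) (hJ : ∀ (G : ℕ → ℝ), Monotone G → ∀ b r : ℕ, b ≤ r →
      ∀ lam : ℝ, 0 < lam → ∀ N : ℕ → ℕ,
        (∀ n < 2 ^ r, Jumps (avg G n) (2 ^ b) (2 ^ r) lam (N n)) →
          lam ^ 2 * ∑ n ∈ range (2 ^ r), (N n : ℝ) ≤ CJ * En G b (r + 1)) (hCJ : 0 < CJ)
    (A : Set ℕ) (N Y : ℕ) (C2 C v L : ℝ) (hC2 : 0 < C2) (hC : 0 < C) (hv : 0 < v) (hL4 : 4 ≤ L)
    (hLY : L ^ 3 ≤ Y) (hvL : 1 ≤ C * L * v)
    (hpair : ∑ n ∈ Ico N (N + 2 * Y + 1), ((count A n (n + ⌊L⌋₊) : ℝ)) ^ 2 ≤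
      C2 * ((⌊L⌋₊ : ℝ) * v) ^ 2 * Y)
    (lam : ℝ) (hlam : 0 < lam) (M : ℕ → ℕ)
    (hM : ∀ n, N < n → n ≤ N + Y → Ch A v L Y n lam (M n)) :
    ∑ n ∈ Finset.Ioc N (N + Y), (M n : ℝ) ≤ CJ * (C ^ 2 + 16 * C2) * Y / lam ^ 2 := by
  have hL0 : 0 < L := by linarith
  obtain ⟨l, hl⟩ : ∃ l, l = ⌊L⌋₊ := ⟨_, rfl⟩
  have hlL : (l : ℝ) ≤ L := by rw [hl]; exact Nat.floor_le hL0.le
  have hl4 : 4 ≤ l := by
    rw [hl]
    exact Nat.le_floor (by exact_mod_cast hL4)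
  obtain ⟨e, he⟩ : ∃ e, e = Nat.log 2 l := ⟨_, rfl⟩
  have he1 : 2 ^ e ≤ l := by rw [he]; exact Nat.pow_log_le_self 2 (by omega)
  have he2 : l < 2 ^ (e + 1) := by rw [he]; exact Nat.lt_pow_succ_log_self one_lt_two l
  have he3 : 1 ≤ e := by
    rcases Nat.eq_zero_or_pos e with h0 | h0
    · rw [h0] at he2
      norm_num at he2
      omega
    · exact h0
  obtain ⟨b, hb⟩ : ∃ b, e = b + 1 := ⟨e - 1, by omega⟩
  rw [hb] at he1 he2
  obtain ⟨D, hD⟩ : ∃ D, D = 2 ^ b := ⟨_, rfl⟩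
  have hD0 : 0 < D := by rw [hD]; positivity
  have hD2 : 2 * D ≤ l := by
    rw [hD]
    rw [pow_succ] at he1
    omega
  have hD4 : l < 4 * D := by
    rw [hD]
    rw [pow_succ, pow_succ] at he2
    omega
  have hD2r : 2 * (D : ℝ) ≤ L := by
    refine le_trans ?_ hlL
    exact_mod_cast hD2
  have hD4r : (l : ℝ) ≤ 4 * D := by exact_mod_cast hD4.le
  have hDr : (0 : ℝ) < D := by exact_mod_cast hD0
  obtain ⟨r, hr⟩ : ∃ r, r = Nat.log 2 (Y + D) + 1 := ⟨_, rfl⟩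
  have hr1 : Y + D < 2 ^ r := by rw [hr]; exact Nat.lt_pow_succ_log_self one_lt_two _
  have hbr : b ≤ r := by
    by_contra hcon
    have : 2 ^ r ≤ 2 ^ b := Nat.pow_le_pow_right (by norm_num) (by omega)
    omega
  -- the numbers of jumps
  obtain ⟨M', hM'⟩ : ∃ M' : ℕ → ℕ, M' = fun u => if D < u ∧ u ≤ Y + D then M (N + u - D) else 0 :=
    ⟨_, rfl⟩
  have hjump : ∀ u < 2 ^ r, Jumps (avg (G A N Y D) u) (2 ^ b) (2 ^ r) (lam * v) (M' u) := by
    intro u _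
    rw [hM']
    simp only
    split_ifs with hu
    · have h1 := jumps_of A N Y D r (N + u - D) v L lam (M (N + u - D)) hv (by linarith)
        (by omega) (by omega) (by omega) (hM _ (by omega) (by omega))
      have e1 : N + u - D - N + D = u := by omega
      rw [e1] at h1
      rw [← hD]
      exact h1
    · exact ⟨fun _ => 0, fun _ => 0, fun i hi => absurd hi (Nat.not_lt_zero _),
        fun i hi => absurd hi (Nat.not_lt_zero _)⟩
  have hmain := hJ (G A N Y D) (G_mono A N Y D) b r hbr (lam * v) (by positivity) M' hjump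
  have hsumN : ∑ n ∈ Finset.Ioc N (N + Y), (M n : ℝ) ≤ ∑ n ∈ range (2 ^ r), (M' n : ℝ) := by
    have h1 : ∑ n ∈ Finset.Ioc N (N + Y), (M n : ℝ) = ∑ u ∈ Finset.Ioc D (Y + D), (M' u : ℝ) := by
      apply Finset.sum_bij (fun n _ => n - N + D)
      · intro n hn
        rw [mem_Ioc] at hn ⊢
        omega
      · intro n hn m hm h
        rw [mem_Ioc] at hn hm
        omega
      · intro u hu
        rw [mem_Ioc] at hu
        refine ⟨N + u - D, ?_, ?_⟩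
        · rw [mem_Ioc]
          omega
        · omega
      · intro n hn
        rw [mem_Ioc] at hn
        rw [hM']
        simp only
        rw [if_pos (by omega)]
        congr 2
        omega
    rw [h1]
    apply sum_le_sum_of_subset_of_nonneg
    · intro u hu
      rw [mem_Ioc] at hu
      rw [mem_range]
      omega
    · intro u _ _
      positivity
  have hen := energy A N Y b l (r + 1) (by rw [← hD]; exact hD2) (by omega)
  rw [← hD] at hen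
  rw [← hl] at hpair
  obtain ⟨S, hS⟩ : ∃ S, S = ∑ n ∈ range (2 ^ r), (M' n : ℝ) := ⟨_, rfl⟩
  obtain ⟨E, hE⟩ : ∃ E, E = En (G A N Y D) b (r + 1) := ⟨_, rfl⟩
  rw [← hS] at hsumN hmain
  rw [← hE] at hmain hen
  have hY0 : (0 : ℝ) ≤ Y := Nat.cast_nonneg Y
  -- `D ≤ C² Y v²`
  have hDv : (D : ℝ) ≤ C ^ 2 * Y * v ^ 2 := by
    have h1 : 1 ≤ (C * L * v) ^ 2 := one_le_pow₀ hvL
    calc (D : ℝ) ≤ L * 1 := by linarith
      _ ≤ L * (C * L * v) ^ 2 := by gcongr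
      _ = C ^ 2 * L ^ 3 * v ^ 2 := by ring
      _ ≤ C ^ 2 * Y * v ^ 2 := by gcongr
  have hl2 : ((l : ℝ) * v) ^ 2 ≤ 16 * ((D : ℝ) ^ 2 * v ^ 2) := by
    calc ((l : ℝ) * v) ^ 2 ≤ (4 * D * v) ^ 2 := by gcongr
      _ = 16 * ((D : ℝ) ^ 2 * v ^ 2) := by ring
  have hen2 : (D : ℝ) ^ 2 * E ≤ (D : ℝ) ^ 2 * v ^ 2 * ((C ^ 2 + 16 * C2) * Y) := by
    calc (D : ℝ) ^ 2 * E ≤ (D : ℝ) ^ 3 + C2 * ((l : ℝ) * v) ^ 2 * Y := by linarith
      _ = (D : ℝ) ^ 2 * D + C2 * ((l : ℝ) * v) ^ 2 * Y := by ring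
      _ ≤ (D : ℝ) ^ 2 * (C ^ 2 * Y * v ^ 2) + C2 * (16 * ((D : ℝ) ^ 2 * v ^ 2)) * Y := by
        gcongr
      _ = _ := by ring
  have hE2 : E ≤ v ^ 2 * ((C ^ 2 + 16 * C2) * Y) := by
    have hD2p : (0 : ℝ) < (D : ℝ) ^ 2 := by positivity
    apply le_of_mul_le_mul_left _ hD2p
    calc (D : ℝ) ^ 2 * E ≤ _ := hen2
      _ = (D : ℝ) ^ 2 * (v ^ 2 * ((C ^ 2 + 16 * C2) * Y)) := by ring
  have hv2 : 0 < v ^ 2 := by positivity
  have hfin : lam ^ 2 * S ≤ CJ * ((C ^ 2 + 16 * C2) * Y) := by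
    apply le_of_mul_le_mul_left _ hv2
    calc v ^ 2 * (lam ^ 2 * S) = (lam * v) ^ 2 * S := by ring
      _ ≤ CJ * E := hmain
      _ ≤ CJ * (v ^ 2 * ((C ^ 2 + 16 * C2) * Y)) := by gcongr
      _ = v ^ 2 * (CJ * ((C ^ 2 + 16 * C2) * Y)) := by ring
  rw [le_div_iff₀ (by positivity)]
  calc (∑ n ∈ Finset.Ioc N (N + Y), (M n : ℝ)) * lam ^ 2 ≤ S * lam ^ 2 := by gcongr
    _ = lam ^ 2 * S := by ring
    _ ≤ CJ * ((C ^ 2 + 16 * C2) * Y) := hfin
    _ = CJ * (C ^ 2 + 16 * C2) * Y := by ring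

end Pool.Agent.N610.JW.UNI_

namespace Pool.Agent.N610.JW

open Polynomial Finset Filter

theorem t_UNI (h1 : Pool.Agent.N610.JV.S_JUMP) (h2 : S_MOM) (h3 : S_COL) : S_UNI := by
  obtain ⟨CJ, hCJ, hJ⟩ := h1
  intro k d C r hk hd hC hr
  obtain ⟨C2, hC2, hmom⟩ := h2 k d (2 * C) r hk hd (by omega) hr
  obtain ⟨_, hcol⟩ := h3 k d C hk hd hC
  have hm : 1 ≤ k * d := Nat.mul_pos hk hd
  obtain ⟨c, hc, hV⟩ := UNI_.V_low (k * d) hm
  have hCr : (1 : ℝ) ≤ C := by exact_mod_cast hC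
  refine ⟨CJ * ((C : ℝ) ^ 2 + 16 * C2), by positivity, ?_⟩
  have hlogX : Tendsto (fun Y : ℕ => Real.log (Y : ℝ)) atTop atTop :=
    Real.tendsto_log_atTop.comp tendsto_natCast_atTop_atTop
  filter_upwards [hmom, hcol,
    Pool.Agent.TH464.PW.logpow_rpow (2 * (k * d) * 3) ((1 + 1 / c) ^ 3) 1 (by positivity) one_pos,
    hlogX.eventually_ge_atTop (4 * C), eventually_ge_atTop 2] with Y hY1 hY2 hY3 hY4 hY5
    f hf N A hA lam hlam M hM
  obtain ⟨hPer, -⟩ := hY2 f hf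
  have hlow := hV k f hf.1 hPer Y hY5
  have hVp := UNI_.V_pos f hf.1 Y
  obtain ⟨v, hv⟩ : ∃ v, v = V f Y := ⟨_, rfl⟩
  obtain ⟨Lg, hLg⟩ : ∃ Lg, Lg = Real.log (Y : ℝ) := ⟨_, rfl⟩
  obtain ⟨L, hL⟩ : ∃ L, L = max (Real.log Y) (1 / V f Y) / C := ⟨_, rfl⟩
  have hLg4 : 4 * (C : ℝ) ≤ Lg := by rw [hLg]; exact hY4
  have hLg1 : 1 ≤ Lg := by linarith
  have hC0 : (0 : ℝ) < C := by linarith
  rw [← hL] at hM
  rw [← hv, ← hLg] at hL
  rw [← hv] at hM hVp hlow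
  rw [← hLg] at hlow hY3
  have hL1 : Lg ≤ C * L := by
    rw [hL, mul_div_cancel₀ _ hC0.ne']
    exact le_max_left _ _
  have hL2 : 1 / v ≤ C * L := by
    rw [hL, mul_div_cancel₀ _ hC0.ne']
    exact le_max_right _ _
  have hL4 : 4 ≤ L := by
    have : C * 4 ≤ C * L := by linarith
    exact le_of_mul_le_mul_left this hC0
  have hL0 : 0 < L := by linarith
  have hvL : 1 ≤ C * L * v := by
    rw [div_le_iff₀ hVp] at hL2
    exact hL2
  have hLup : L ≤ (1 + 1 / c) * Lg ^ (2 * (k * d)) := by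
    have hLgp : Lg ≤ Lg ^ (2 * (k * d)) := le_self_pow₀ hLg1 (by omega)
    have hLgp0 : 0 < Lg ^ (2 * (k * d)) := by positivity
    have hic : 0 < 1 / c := by positivity
    have e1 : 1 / v ≤ 1 / c * Lg ^ (2 * (k * d)) := by
      have e2 : 0 < c / Lg ^ (2 * (k * d)) := by positivity
      calc 1 / v ≤ 1 / (c / Lg ^ (2 * (k * d))) := one_div_le_one_div_of_le e2 hlow
        _ = 1 / c * Lg ^ (2 * (k * d)) := by
          rw [one_div_div]
          ring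
    have e3 : L ≤ max Lg (1 / v) := by
      rw [hL]
      apply div_le_self _ hCr
      exact le_trans (by linarith) (le_max_left _ _)
    refine e3.trans (max_le ?_ ?_)
    · nlinarith
    · nlinarith
  have hL3 : L ^ 3 ≤ Y := by
    calc L ^ 3 ≤ ((1 + 1 / c) * Lg ^ (2 * (k * d))) ^ 3 := by gcongr
      _ = (1 + 1 / c) ^ 3 * Lg ^ (2 * (k * d) * 3) := by rw [mul_pow, ← pow_mul]
      _ ≤ (Y : ℝ) ^ (1 : ℝ) := hY3
      _ = Y := Real.rpow_one _
  have hLY : L ≤ Y := by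
    refine le_trans ?_ hL3
    exact le_self_pow₀ (by linarith) (by norm_num)
  obtain ⟨l, hl⟩ : ∃ l, l = ⌊L⌋₊ := ⟨_, rfl⟩
  have hlL : (l : ℝ) ≤ L := by rw [hl]; exact Nat.floor_le hL0.le
  have hLl : L < l + 1 := by rw [hl]; exact Nat.lt_floor_add_one L
  have hLl2 : L ≤ 2 * l := by linarith
  have hsys : SysH k d ((Y : ℝ) ^ (2 * C)) f := by
    refine ⟨hf.1, hf.2.1, fun i j => (hf.2.2 i j).trans ?_⟩
    apply pow_le_pow_right₀
    · exact_mod_cast (by omega : 1 ≤ Y)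
    · omega
  have hpair := hY1 f hsys N A hA l (by exact_mod_cast hlL.trans hLY) (by
      rw [← hLg]
      push_cast
      calc Lg ≤ C * L := hL1
        _ ≤ C * (2 * l) := by gcongr
        _ = 2 * C * l := by ring) (by
      rw [← hv]
      push_cast
      calc (1 : ℝ) ≤ C * L * v := hvL
        _ ≤ C * (2 * l) * v := by gcongr
        _ = 2 * C * l * v := by ring)
  rw [← hv, hl] at hpair
  exact UNI_.one CJ hJ hCJ A N Y C2 C v L hC2 hC0 hVp hL4 hL3 hvL hpair lam hlam M hM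

end Pool.Agent.N610.JW
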